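import Mathlib

set_option autoImplicit false

namespace TE

open Finset

variable {V : Type*} [Fintype V] [DecidableEq V]

/-- The number of common neighbours of two vertices. -/
def cd (G : SimpleGraph V) [DecidableRel G.Adj] (x y : V) : ℕ :=
  (G.neighborFinset x ∩ G.neighborFinset y).card

/-- The adjacency matrix entry as a real number. -/
def ad (G : SimpleGraph V) [DecidableRel G.Adj] (x y : V) : ℝ := if G.Adj x y then 1 else 0

/-- Everything that is used about a connected graph with three eigenvalues `θ0 > θ1 > θ2 ≥ -T`. -/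
structure Dat (G : SimpleGraph V) [DecidableRel G.Adj] (T θ0 θ1 θ2 : ℝ) (α : V → ℝ) : Prop where
  T1 : 1 ≤ T
  h01 : θ1 < θ0
  h12 : θ2 < θ1
  hT : -T ≤ θ2
  h0 : 0 < θ0
  conn : G.Connected
  pos : ∀ x, 0 < α x
  diag : ∀ x, (G.degree x : ℝ) = α x ^ 2 - θ1 * θ2
  adj : ∀ x y, G.Adj x y → (cd G x y : ℝ) = α x * α y + θ1 + θ2
  nadj : ∀ x y, x ≠ y → ¬ G.Adj x y → (cd G x y : ℝ) = α x * α y
  eig : ∀ x, ∑ y, ad G x y * α y = θ0 * α x
  psd : ∀ v : V → ℝ, -T * ∑ x, v x ^ 2 ≤ ∑ x, ∑ y, v x * (ad G x y * v y)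
  int : IsIntegral ℤ (θ1 * θ2)
  ev : ∀ (μ : ℝ) (v : V → ℝ), v ≠ 0 → (∀ x, ∑ y, ad G x y * v y = μ * v x) →
    μ = θ0 ∨ μ = θ1 ∨ μ = θ2

end TE
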