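import Mathlib
import Pool.Agent.Helper85.TE.Defs

set_option autoImplicit false

namespace TE

open Finset Matrix

set_option linter.unusedSectionVars false
set_option linter.unusedSimpArgs false

variable {V : Type*} [Fintype V] [DecidableEq V]

lemma psd_of_ev (B : Matrix V V ℝ) (hB : B.IsHermitian)
    (h : ∀ (μ : ℝ) (v : V → ℝ), v ≠ 0 → B *ᵥ v = μ • v → 0 ≤ μ) : B.PosSemidef := by
  rw [hB.posSemidef_iff_eigenvalues_nonneg]
  intro i
  exact h _ _ ((WithLp.ofLp_eq_zero 2).ne.2 <| hB.eigenvectorBasis.orthonormal.ne_zero i)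
    (hB.mulVec_eigenvectorBasis i)

lemma zero_of_basis (A P : Matrix V V ℝ) (hA : A.IsHermitian)
    (h : ∀ (μ : ℝ) (v : V → ℝ), v ≠ 0 → A *ᵥ v = μ • v → P *ᵥ v = 0) : P = 0 := by
  have h1 : ∀ i, P *ᵥ (WithLp.ofLp (hA.eigenvectorBasis i)) = 0 := fun i =>
    h _ _ ((WithLp.ofLp_eq_zero 2).ne.2 <| hA.eigenvectorBasis.orthonormal.ne_zero i)
      (hA.mulVec_eigenvectorBasis i)
  have h2 : ∀ w : V → ℝ, P *ᵥ w = 0 := by
    intro w
    have h3 := hA.eigenvectorBasis.sum_repr (WithLp.toLp 2 w)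
    have h4 : w = ∑ i, (hA.eigenvectorBasis.repr (WithLp.toLp 2 w)) i •
        (WithLp.ofLp (hA.eigenvectorBasis i)) := by
      have := congrArg WithLp.ofLp h3
      simpa using this.symm
    rw [h4, Matrix.mulVec_sum]
    refine Finset.sum_eq_zero fun i _ => ?_
    rw [Matrix.mulVec_smul, h1 i, smul_zero]
  ext i j
  have := congrFun (h2 (Pi.single j 1)) i
  simpa using this

lemma exists_three (S : Set ℝ) (h : S.ncard = 3) :
    ∃ a b c : ℝ, b < a ∧ c < b ∧ S = {a, b, c} := by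
  obtain ⟨x, y, z, hxy, hxz, hyz, rfl⟩ := Set.ncard_eq_three.mp h
  rcases lt_or_gt_of_ne hxy with h1 | h1 <;> rcases lt_or_gt_of_ne hxz with h2 | h2 <;>
    rcases lt_or_gt_of_ne hyz with h3 | h3
  · exact ⟨z, y, x, h3, h1, by ext w; simp; tauto⟩
  · exact ⟨y, z, x, h3, h2, by ext w; simp; tauto⟩
  · exfalso; linarith
  · exact ⟨y, x, z, h1, h2, by ext w; simp; tauto⟩
  · exact ⟨z, x, y, h2, h1, by ext w; simp; tauto⟩
  · exfalso; linarith
  · exact ⟨x, z, y, h2, h3, by ext w; simp; tauto⟩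
  · exact ⟨x, y, z, h1, h3, rfl⟩

lemma ev_integral (G : SimpleGraph V) [DecidableRel G.Adj] (μ : ℝ) (v : V → ℝ) (hv : v ≠ 0)
    (h : (G.adjMatrix ℝ) *ᵥ v = μ • v) : IsIntegral ℤ μ := by
  refine ⟨(G.adjMatrix ℤ).charpoly, Matrix.charpoly_monic _, ?_⟩
  rw [← Polynomial.eval_map, ← Matrix.charpoly_map, Matrix.eval_charpoly]
  have hm : (algebraMap ℤ ℝ).mapMatrix (G.adjMatrix ℤ) = G.adjMatrix ℝ := by
    ext i j
    simp only [RingHom.mapMatrix_apply, Matrix.map_apply, SimpleGraph.adjMatrix_apply]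
    split_ifs <;> simp
  have hm' : (G.adjMatrix ℤ).map (algebraMap ℤ ℝ) = G.adjMatrix ℝ := hm
  rw [hm']
  rw [← Matrix.exists_mulVec_eq_zero_iff]
  refine ⟨v, hv, ?_⟩
  rw [Matrix.sub_mulVec, h]
  ext i
  simp [Matrix.scalar_apply, Matrix.mulVec_diagonal]

lemma conn_prop {G : SimpleGraph V} (hc : G.Connected) (p : V → Prop)
    (h : ∀ x y, G.Adj x y → p x → p y) (x y : V) (hx : p x) : p y := by
  obtain ⟨w⟩ := hc.preconnected x y
  induction w with
  | nil => exact hx
  | cons hadj _ ih => exact ih (h _ _ hadj hx)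

lemma mulVec_ad (G : SimpleGraph V) [DecidableRel G.Adj] (v : V → ℝ) (x : V) :
    ((G.adjMatrix ℝ) *ᵥ v) x = ∑ y, ad G x y * v y := by
  simp only [Matrix.mulVec, dotProduct, SimpleGraph.adjMatrix_apply, ad]

lemma quad_ad (G : SimpleGraph V) [DecidableRel G.Adj] (v : V → ℝ) :
    v ⬝ᵥ ((G.adjMatrix ℝ) *ᵥ v) = ∑ x, ∑ y, v x * (ad G x y * v y) := by
  simp only [dotProduct, mulVec_ad, Finset.mul_sum]

lemma ad_nonneg (G : SimpleGraph V) [DecidableRel G.Adj] (x y : V) : 0 ≤ ad G x y := by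
  unfold ad; split_ifs <;> norm_num

lemma abs_ev (G : SimpleGraph V) [DecidableRel G.Adj] (θ : ℝ)
    (hP : (θ • (1 : Matrix V V ℝ) - G.adjMatrix ℝ).PosSemidef) (v : V → ℝ)
    (hv : (G.adjMatrix ℝ) *ᵥ v = θ • v) :
    (G.adjMatrix ℝ) *ᵥ (fun x => |v x|) = θ • (fun x => |v x|) := by
  set w : V → ℝ := fun x => |v x| with hw
  have h1 : star w ⬝ᵥ ((θ • (1 : Matrix V V ℝ) - G.adjMatrix ℝ) *ᵥ w) = 0 := by
    apply le_antisymm
    · have e1 : star w ⬝ᵥ ((θ • (1 : Matrix V V ℝ) - G.adjMatrix ℝ) *ᵥ w) =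
          θ * (∑ x, w x * w x) - ∑ x, ∑ y, w x * (ad G x y * w y) := by
        rw [Matrix.sub_mulVec, dotProduct_sub, star_trivial, quad_ad, Matrix.smul_mulVec,
          Matrix.one_mulVec, dotProduct_smul]
        simp [dotProduct]
      have e2 : θ * (∑ x, v x * v x) - ∑ x, ∑ y, v x * (ad G x y * v y) = 0 := by
        rw [← quad_ad, hv, dotProduct_smul]
        simp [dotProduct]
      have e3 : ∑ x, w x * w x = ∑ x, v x * v x :=
        Finset.sum_congr rfl fun x _ => abs_mul_abs_self (v x)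
      have e4 : ∑ x, ∑ y, v x * (ad G x y * v y) ≤ ∑ x, ∑ y, w x * (ad G x y * w y) := by
        refine Finset.sum_le_sum fun x _ => Finset.sum_le_sum fun y _ => ?_
        have a1 : v x * (ad G x y * v y) = ad G x y * (v x * v y) := by ring
        have a2 : w x * (ad G x y * w y) = ad G x y * (w x * w y) := by ring
        rw [a1, a2]
        refine mul_le_mul_of_nonneg_left ?_ (ad_nonneg G x y)
        rw [hw]
        simp only
        rw [← abs_mul]
        exact le_abs_self _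
      rw [e1, e3]
      linarith
    · exact hP.dotProduct_mulVec_nonneg w
  have h2 := (hP.dotProduct_mulVec_zero_iff w).mp h1
  rw [Matrix.sub_mulVec, Matrix.smul_mulVec, Matrix.one_mulVec, sub_eq_zero] at h2
  exact h2.symm

lemma zero_of_zero (G : SimpleGraph V) [DecidableRel G.Adj] (hc : G.Connected) (θ : ℝ)
    (hP : (θ • (1 : Matrix V V ℝ) - G.adjMatrix ℝ).PosSemidef) (v : V → ℝ)
    (hv : (G.adjMatrix ℝ) *ᵥ v = θ • v) (x0 : V) (hx : v x0 = 0) : v = 0 := by
  have hw := abs_ev G θ hP v hv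
  have key : ∀ x y, G.Adj x y → v x = 0 → v y = 0 := by
    intro x y hxy hvx
    have h1 := congrFun hw x
    rw [mulVec_ad] at h1
    simp only [Pi.smul_apply, smul_eq_mul, hvx, abs_zero, mul_zero] at h1
    have h2 := (Finset.sum_eq_zero_iff_of_nonneg
      (fun y _ => mul_nonneg (ad_nonneg G x y) (abs_nonneg (v y)))).mp h1 y (Finset.mem_univ y)
    simp only [ad, hxy, if_true, one_mul, abs_eq_zero] at h2
    exact h2
  ext y
  exact conn_prop hc (fun z => v z = 0) key x0 y hx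

lemma sq_apply (G : SimpleGraph V) [DecidableRel G.Adj] (x y : V) :
    (G.adjMatrix ℝ * G.adjMatrix ℝ) x y = (cd G x y : ℝ) := by
  rw [Matrix.mul_apply, cd, Finset.card_eq_sum_ones, Nat.cast_sum]
  rw [← Finset.sum_filter_add_sum_filter_not Finset.univ
    (fun z => z ∈ G.neighborFinset x ∩ G.neighborFinset y)]
  have e1 : ∑ z ∈ Finset.univ.filter (fun z => ¬ z ∈ G.neighborFinset x ∩ G.neighborFinset y),
      G.adjMatrix ℝ x z * G.adjMatrix ℝ z y = 0 := by
    refine Finset.sum_eq_zero fun z hz => ?_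
    simp only [Finset.mem_filter, Finset.mem_univ, true_and, Finset.mem_inter,
      SimpleGraph.mem_neighborFinset, not_and] at hz
    simp only [SimpleGraph.adjMatrix_apply]
    by_cases h : G.Adj x z
    · have := hz h
      rw [if_neg (show ¬ G.Adj z y from fun h' => this h'.symm)]
      ring
    · rw [if_neg h]; ring
  rw [e1, add_zero]
  have e2 : Finset.univ.filter (fun z => z ∈ G.neighborFinset x ∩ G.neighborFinset y) =
      G.neighborFinset x ∩ G.neighborFinset y := by ext; simp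
  rw [e2]
  refine Finset.sum_congr rfl fun z hz => ?_
  simp only [Finset.mem_inter, SimpleGraph.mem_neighborFinset] at hz
  simp [SimpleGraph.adjMatrix_apply, hz.1, hz.2.symm]

theorem exists_dat (G : SimpleGraph V) [DecidableRel G.Adj] (T : ℝ) (hT1 : 1 ≤ T)
    (hc : G.Connected)
    (h3 : {μ : ℝ | ∃ v : V → ℝ, v ≠ 0 ∧ (G.adjMatrix ℝ) *ᵥ v = μ • v}.ncard = 3)
    (hT : ∀ μ : ℝ, ∀ v : V → ℝ, v ≠ 0 → (G.adjMatrix ℝ) *ᵥ v = μ • v → -T ≤ μ) :
    ∃ (θ0 θ1 θ2 : ℝ) (α : V → ℝ), Dat G T θ0 θ1 θ2 α := by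
  obtain ⟨θ0, θ1, θ2, h01, h12, hS⟩ := exists_three _ h3
  set A := G.adjMatrix ℝ with hAdef
  have hev : ∀ (μ : ℝ) (v : V → ℝ), v ≠ 0 → A *ᵥ v = μ • v → μ = θ0 ∨ μ = θ1 ∨ μ = θ2 := by
    intro μ v hv h
    have : μ ∈ ({θ0, θ1, θ2} : Set ℝ) := by rw [← hS]; exact ⟨v, hv, h⟩
    simpa using this
  have hex : ∀ μ ∈ ({θ0, θ1, θ2} : Set ℝ), ∃ v : V → ℝ, v ≠ 0 ∧ A *ᵥ v = μ • v := by
    intro μ hμ
    rw [← hS] at hμ
    exact hμ
  have hsymm : A.IsHermitian := by
    rw [Matrix.IsHermitian, Matrix.conjTranspose_eq_transpose_of_trivial]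
    exact SimpleGraph.isSymm_adjMatrix G
  have h1symm : (1 : Matrix V V ℝ).IsHermitian := Matrix.isHermitian_one
  have hsm : ∀ c : ℝ, (c • (1 : Matrix V V ℝ)).IsHermitian := by
    intro c
    rw [Matrix.IsHermitian, Matrix.conjTranspose_smul, star_trivial, h1symm.eq]
  have hP : (θ0 • (1 : Matrix V V ℝ) - A).PosSemidef := by
    refine psd_of_ev _ ((hsm θ0).sub hsymm) ?_
    intro μ v hv h
    have h' : A *ᵥ v = (θ0 - μ) • v := by
      rw [Matrix.sub_mulVec, Matrix.smul_mulVec, Matrix.one_mulVec] at h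
      rw [sub_smul, ← h]; abel
    rcases hev _ v hv h' with h | h | h <;> linarith
  have hQ : (A + T • (1 : Matrix V V ℝ)).PosSemidef := by
    refine psd_of_ev _ (hsymm.add (hsm T)) ?_
    intro μ v hv h
    have h' : A *ᵥ v = (μ - T) • v := by
      rw [Matrix.add_mulVec, Matrix.smul_mulVec, Matrix.one_mulVec] at h
      rw [sub_smul, ← h]; abel
    have := hT _ v hv h'
    linarith
  obtain ⟨v0, hv0, hv0'⟩ := hex θ0 (by simp)
  obtain ⟨x0⟩ := hc.nonempty
  set u : V → ℝ := fun x => |v0 x| with hu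
  have hAu : A *ᵥ u = θ0 • u := abs_ev G θ0 hP v0 hv0'
  have hupos : ∀ x, 0 < u x := by
    intro x
    rcases (abs_nonneg (v0 x)).lt_or_eq with h | h
    · exact h
    · exfalso
      exact hv0 (zero_of_zero G hc θ0 hP v0 hv0' x (abs_eq_zero.mp h.symm))
  set M : Matrix V V ℝ := (A - θ1 • 1) * (A - θ2 • 1) with hM
  have hMA : (A - θ0 • 1) * M = 0 := by
    refine zero_of_basis A _ hsymm ?_
    intro μ v hv h
    have e : ∀ c : ℝ, (A - c • (1 : Matrix V V ℝ)) *ᵥ v = (μ - c) • v := by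
      intro c
      rw [Matrix.sub_mulVec, Matrix.smul_mulVec, Matrix.one_mulVec, h, sub_smul]
    rw [hM, ← Matrix.mulVec_mulVec, ← Matrix.mulVec_mulVec, e θ2, Matrix.mulVec_smul, e θ1,
      Matrix.mulVec_smul, Matrix.mulVec_smul, e θ0, smul_smul, smul_smul]
    have : (μ - θ2) * (μ - θ1) * (μ - θ0) = 0 := by
      rcases hev μ v hv h with h | h | h <;> rw [h] <;> ring
    rw [this, zero_smul]
  have hMexp : ∀ x y, M x y = (cd G x y : ℝ) - (θ1 + θ2) * ad G x y +
      (if x = y then θ1 * θ2 else 0) := by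
    intro x y
    have : M = A * A - (θ1 + θ2) • A + (θ1 * θ2) • (1 : Matrix V V ℝ) := by
      rw [hM, Matrix.sub_mul, Matrix.mul_sub, Matrix.mul_sub]
      simp only [Matrix.mul_smul, Matrix.smul_mul, Matrix.mul_one, Matrix.one_mul, add_smul,
        smul_smul, mul_comm θ2 θ1]
      abel
    rw [this, Matrix.add_apply, Matrix.sub_apply, hAdef, sq_apply, Matrix.smul_apply,
      Matrix.smul_apply, SimpleGraph.adjMatrix_apply, Matrix.one_apply]
    simp only [smul_eq_mul, ad]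
    split_ifs <;> simp
  have hcdsymm : ∀ x y, cd G x y = cd G y x := by
    intro x y; unfold cd; rw [Finset.inter_comm]
  have hMsymm : ∀ x y, M x y = M y x := by
    intro x y
    rw [hMexp, hMexp, hcdsymm]
    have : ad G x y = ad G y x := by unfold ad; simp [G.adj_comm]
    rw [this]
    by_cases h : x = y
    · simp [h]
    · rw [if_neg h, if_neg (Ne.symm h)]
  have hcol : ∀ j, A *ᵥ (fun i => M i j) = θ0 • (fun i => M i j) := by
    intro j
    have h1 : ((A - θ0 • 1) * M) *ᵥ (Pi.single j 1) = 0 := by rw [hMA, Matrix.zero_mulVec]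
    rw [← Matrix.mulVec_mulVec] at h1
    have h2 : M *ᵥ (Pi.single j 1) = fun i => M i j := by
      ext i; simp
    rw [h2, Matrix.sub_mulVec, Matrix.smul_mulVec, Matrix.one_mulVec, sub_eq_zero] at h1
    exact h1
  have hMu : ∀ i j, M i j = (M x0 j / u x0) * u i := by
    intro i j
    have h1 : A *ᵥ ((fun i => M i j) - (M x0 j / u x0) • u) =
        θ0 • ((fun i => M i j) - (M x0 j / u x0) • u) := by
      rw [Matrix.mulVec_sub, Matrix.mulVec_smul, hcol j, hAu, smul_sub, smul_comm]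
    have h2 := zero_of_zero G hc θ0 hP _ h1 x0 (by
      simp only [Pi.sub_apply, Pi.smul_apply, smul_eq_mul]
      rw [div_mul_cancel₀ _ (hupos x0).ne', sub_self])
    have h3 := congrFun h2 i
    simp only [Pi.sub_apply, Pi.smul_apply, smul_eq_mul, Pi.zero_apply] at h3
    linarith
  set k : ℝ := M x0 x0 / (u x0) ^ 2 with hk
  have hMk : ∀ i j, M i j = k * (u i * u j) := by
    intro i j
    rw [hMu i j, hMsymm x0 j, hMu j x0, hk]
    have := (hupos x0).ne'
    field_simp
  have hkpos : 0 < k := by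
    have h1 : (M *ᵥ u) x0 = (θ0 - θ2) * (θ0 - θ1) * u x0 := by
      rw [hM, ← Matrix.mulVec_mulVec]
      have e : ∀ c : ℝ, (A - c • (1 : Matrix V V ℝ)) *ᵥ u = (θ0 - c) • u := by
        intro c
        rw [Matrix.sub_mulVec, Matrix.smul_mulVec, Matrix.one_mulVec, hAu, sub_smul]
      rw [e θ2, Matrix.mulVec_smul, e θ1, smul_smul]
      simp
    have h2 : (M *ᵥ u) x0 = k * u x0 * ∑ j, u j ^ 2 := by
      simp only [Matrix.mulVec, dotProduct, Finset.mul_sum]
      refine Finset.sum_congr rfl fun j _ => ?_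
      rw [hMk]; ring
    have h3 : 0 < ∑ j, u j ^ 2 := Finset.sum_pos (fun j _ => pow_pos (hupos j) 2) ⟨x0, by simp⟩
    have h4 : 0 < (θ0 - θ2) * (θ0 - θ1) * u x0 :=
      mul_pos (mul_pos (by linarith) (by linarith)) (hupos x0)
    rw [← h1, h2] at h4
    by_contra hneg
    have : k * u x0 * ∑ j, u j ^ 2 ≤ 0 :=
      mul_nonpos_of_nonpos_of_nonneg (mul_nonpos_of_nonpos_of_nonneg (not_lt.mp hneg)
        (hupos x0).le) h3.le
    linarith
  have hMα : ∀ i j, M i j = (Real.sqrt k * u i) * (Real.sqrt k * u j) := by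
    intro i j
    rw [hMk]
    have := Real.mul_self_sqrt hkpos.le
    linear_combination -(u i * u j) * this
  have hθ0 : 0 < θ0 := by
    have h1 := congrFun hAu x0
    rw [hAdef, mulVec_ad] at h1
    simp only [Pi.smul_apply, smul_eq_mul] at h1
    by_contra hneg
    have hneg' : θ0 ≤ 0 := not_lt.mp hneg
    have hz : ∀ x y, ad G x y * u y = 0 := by
      intro x y
      have h1 := congrFun hAu x
      rw [hAdef, mulVec_ad] at h1
      simp only [Pi.smul_apply, smul_eq_mul] at h1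
      have h2 : ∑ y, ad G x y * u y = 0 := by
        apply le_antisymm
        · rw [h1]; exact mul_nonpos_of_nonpos_of_nonneg hneg' (hupos x).le
        · exact Finset.sum_nonneg fun y _ => mul_nonneg (ad_nonneg G x y) (hupos y).le
      exact (Finset.sum_eq_zero_iff_of_nonneg
        (fun y _ => mul_nonneg (ad_nonneg G x y) (hupos y).le)).mp h2 y (Finset.mem_univ y)
    have hz' : ∀ x y, ad G x y = 0 := fun x y =>
      (mul_eq_zero.mp (hz x y)).resolve_right (hupos y).ne'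
    have hz2 : ∀ (μ : ℝ) (v : V → ℝ), v ≠ 0 → A *ᵥ v = μ • v → μ = 0 := by
      intro μ v hv h
      by_contra hμ
      apply hv
      ext x
      have h1 := congrFun h x
      rw [hAdef, mulVec_ad] at h1
      simp only [hz', zero_mul, Finset.sum_const_zero, Pi.smul_apply, smul_eq_mul] at h1
      exact (mul_eq_zero.mp h1.symm).resolve_left hμ
    obtain ⟨v1, hv1, hv1'⟩ := hex θ1 (by simp)
    obtain ⟨v2, hv2, hv2'⟩ := hex θ2 (by simp)
    have := hz2 _ _ hv1 hv1'
    have := hz2 _ _ hv2 hv2'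
    linarith
  refine ⟨θ0, θ1, θ2, fun x => Real.sqrt k * u x, ?_⟩
  refine ⟨hT1, h01, h12, ?_, hθ0, hc, fun x => mul_pos (Real.sqrt_pos.mpr hkpos) (hupos x),
    ?_, ?_, ?_, ?_, ?_, ?_, ?_⟩
  · obtain ⟨v2, hv2, hv2'⟩ := hex θ2 (by simp)
    exact hT _ _ hv2 hv2'
  · intro x
    have h1 := hMexp x x
    rw [hMα, if_pos rfl] at h1
    have h2 : cd G x x = G.degree x := by
      unfold cd; rw [Finset.inter_self]; rfl
    have h3 : ad G x x = 0 := by unfold ad; simp
    rw [h2, h3] at h1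
    linear_combination -h1
  · intro x y hxy
    have h1 := hMexp x y
    rw [hMα, if_neg hxy.ne] at h1
    have h3 : ad G x y = 1 := by unfold ad; simp [hxy]
    rw [h3] at h1
    linear_combination -h1
  · intro x y hne hxy
    have h1 := hMexp x y
    rw [hMα, if_neg hne] at h1
    have h3 : ad G x y = 0 := by unfold ad; simp [hxy]
    rw [h3] at h1
    linear_combination -h1
  · intro x
    have h1 := congrFun hAu x
    rw [hAdef, mulVec_ad] at h1
    simp only [Pi.smul_apply, smul_eq_mul] at h1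
    have : ∑ y, ad G x y * (Real.sqrt k * u y) = Real.sqrt k * ∑ y, ad G x y * u y := by
      rw [Finset.mul_sum]; exact Finset.sum_congr rfl fun y _ => by ring
    rw [this, h1]; ring
  · intro v
    have h1 := hQ.dotProduct_mulVec_nonneg v
    rw [Matrix.add_mulVec, dotProduct_add, star_trivial, hAdef, quad_ad, Matrix.smul_mulVec,
      Matrix.one_mulVec, dotProduct_smul] at h1
    simp only [dotProduct, smul_eq_mul] at h1
    have h2 : ∑ x, v x ^ 2 = ∑ x, v x * v x := Finset.sum_congr rfl fun x _ => by ring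
    rw [h2]; linarith
  · obtain ⟨v1, hv1, hv1'⟩ := hex θ1 (by simp)
    obtain ⟨v2, hv2, hv2'⟩ := hex θ2 (by simp)
    exact (ev_integral G _ _ hv1 hv1').mul (ev_integral G _ _ hv2 hv2')
  · intro μ v hv h
    refine hev μ v hv ?_
    ext x
    rw [hAdef, mulVec_ad, h x]
    simp

end TE
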