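import Mathlib
import Pool.Agent.Helper85.TE.Spec

set_option autoImplicit false
set_option linter.unusedSectionVars false
set_option linter.unusedSimpArgs false

namespace TE

open Finset

variable {V : Type*} [Fintype V] [DecidableEq V]
variable {G : SimpleGraph V} [DecidableRel G.Adj] {T θ0 θ1 θ2 : ℝ} {α : V → ℝ}

/-- the rational numbers inside the reals -/
noncomputable def KQ : Subfield ℝ := (algebraMap ℚ ℝ).fieldRange

lemma rat_int (x : ℝ) (hx : IsIntegral ℤ x) (hq : x ∈ KQ) : ∃ m : ℤ, x = m := by
  obtain ⟨q, rfl⟩ := hq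
  have h1 : IsIntegral ℤ q := (isIntegral_algebraMap_iff (algebraMap ℚ ℝ).injective).mp hx
  obtain ⟨m, hm⟩ := IsIntegrallyClosed.isIntegral_iff.mp h1
  refine ⟨m, ?_⟩
  rw [← hm]
  simp

lemma alg_core (a b c : ℝ) (ha : 0 < a) (hb : 0 < b) (hc : 0 < c) (hab : a ≠ b)
    (h1 : c * (a - b) ∈ KQ) (h2 : a ^ 2 - b ^ 2 ∈ KQ) (h3 : a * b - a * c ∈ KQ)
    (h4 : a ^ 2 - c ^ 2 ∈ KQ) : c ^ 2 ∈ KQ := by
  set n := c * (a - b) with hn
  have hn0 : n ≠ 0 := mul_ne_zero hc.ne' (sub_ne_zero.mpr hab)
  set r := (a ^ 2 - b ^ 2) / n with hr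
  have hrK : r ∈ KQ := div_mem h2 h1
  have hr' : a + b = r * c := by
    rw [hr, hn]
    have : a - b ≠ 0 := sub_ne_zero.mpr hab
    field_simp
    ring
  have hrpos : 0 < r := by
    by_contra hneg
    have : r * c ≤ 0 := mul_nonpos_of_nonpos_of_nonneg (not_lt.mp hneg) hc.le
    linarith
  have hone : (1 : ℝ) ∈ KQ := one_mem _
  have htwo : (2 : ℝ) ∈ KQ := by
    have : (2 : ℝ) = 1 + 1 := by norm_num
    rw [this]; exact add_mem hone hone
  have key : c ^ 2 * ((r - 2) * (r + 1)) = 2 * ((a * b - a * c) + (a ^ 2 - c ^ 2)) - (r - 1) * n := by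
    have hb' : b = r * c - a := by linarith
    rw [hn, hb']
    ring
  have hKright : c ^ 2 * ((r - 2) * (r + 1)) ∈ KQ := by
    rw [key]
    exact sub_mem (mul_mem htwo (add_mem h3 h4)) (mul_mem (sub_mem hrK hone) h1)
  by_cases hr2 : r = 2
  · have hb' : b = 2 * c - a := by rw [hr2] at hr'; linarith
    have hq : a ^ 2 - c ^ 2 - n = (a - c) ^ 2 := by rw [hn, hb']; ring
    have hn' : n = 2 * (c * (a - c)) := by rw [hn, hb']; ring
    have hac : a - c ≠ 0 := by
      intro h0
      rw [h0, mul_zero, mul_zero] at hn'
      exact hn0 hn'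
    have h5 : (a - c) ^ 2 ∈ KQ := by rw [← hq]; exact sub_mem h4 h1
    have h6 : c ^ 2 = (n / 2) ^ 2 / (a - c) ^ 2 := by
      rw [hn']
      field_simp
    rw [h6]
    exact div_mem (pow_mem (div_mem h1 htwo) 2) h5
  · have hne : (r - 2) * (r + 1) ≠ 0 :=
      mul_ne_zero (sub_ne_zero.mpr hr2) (by positivity)
    have h6 : c ^ 2 = (c ^ 2 * ((r - 2) * (r + 1))) / ((r - 2) * (r + 1)) := by
      field_simp
    rw [h6]
    exact div_mem hKright (mul_mem (sub_mem hrK htwo) (add_mem hrK hone))

lemma Dat.cd_pos_nonadj (h : Dat G T θ0 θ1 θ2 α) (x y : V) (hne : x ≠ y) (hxy : ¬ G.Adj x y) :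
    ∃ z, G.Adj x z ∧ G.Adj y z := by
  have h1 := h.nadj x y hne hxy
  have h2 : 0 < α x * α y := mul_pos (h.pos x) (h.pos y)
  rw [← h1] at h2
  have h3 : 0 < cd G x y := by exact_mod_cast h2
  obtain ⟨z, hz⟩ := Finset.card_pos.mp h3
  rw [Finset.mem_inter, SimpleGraph.mem_neighborFinset, SimpleGraph.mem_neighborFinset] at hz
  exact ⟨z, hz.1, hz.2⟩

lemma Dat.reg_of_const (h : Dat G T θ0 θ1 θ2 α) (hα : ∀ x y, G.Adj x y → α x = α y) :
    ∃ d, G.IsRegularOfDegree d := by
  obtain ⟨x0⟩ := h.conn.nonempty
  refine ⟨G.degree x0, fun x => ?_⟩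
  have h1 : α x = α x0 :=
    conn_prop h.conn (fun z => α z = α x0) (fun u v huv hu => by rw [← hα u v huv]; exact hu)
      x0 x rfl
  have h2 := h.diag x
  have h3 := h.diag x0
  rw [h1, ← h3] at h2
  exact_mod_cast h2

lemma nat_mem (n : ℕ) : (n : ℝ) ∈ KQ := natCast_mem _ n

lemma Dat.tau_rat (h : Dat G T θ0 θ1 θ2 α) (hreg : ¬ ∃ d, G.IsRegularOfDegree d) :
    θ1 * θ2 ∈ KQ := by
  have hfin : ∀ v, α v ^ 2 ∈ KQ → θ1 * θ2 ∈ KQ := by
    intro v hv
    have h1 := h.diag v
    have : θ1 * θ2 = α v ^ 2 - G.degree v := by linarith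
    rw [this]
    exact sub_mem hv (nat_mem _)
  by_cases htri : ∃ x y z, G.Adj x y ∧ G.Adj x z ∧ G.Adj y z ∧ α x ≠ α y
  · obtain ⟨x, y, z, hxy, hxz, hyz, hne⟩ := htri
    apply hfin z
    have hx := h.adj x z hxz
    have hy := h.adj y z hyz
    have hz := h.adj x y hxy
    have dx := h.diag x
    have dy := h.diag y
    have dz := h.diag z
    refine alg_core (α x) (α y) (α z) (h.pos x) (h.pos y) (h.pos z) hne ?_ ?_ ?_ ?_
    · have : α z * (α x - α y) = (cd G x z : ℝ) - cd G y z := by rw [hx, hy]; ring
      rw [this]; exact sub_mem (nat_mem _) (nat_mem _)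
    · have : α x ^ 2 - α y ^ 2 = (G.degree x : ℝ) - G.degree y := by rw [dx, dy]; ring
      rw [this]; exact sub_mem (nat_mem _) (nat_mem _)
    · have : α x * α y - α x * α z = (cd G x y : ℝ) - cd G x z := by rw [hx, hz]; ring
      rw [this]; exact sub_mem (nat_mem _) (nat_mem _)
    · have : α x ^ 2 - α z ^ 2 = (G.degree x : ℝ) - G.degree z := by rw [dx, dz]; ring
      rw [this]; exact sub_mem (nat_mem _) (nat_mem _)
  · have htri' : ∀ x y z, G.Adj x y → G.Adj x z → G.Adj y z → α x = α y := by
      intro x y z h1 h2 h3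
      by_contra hne
      exact htri ⟨x, y, z, h1, h2, h3, hne⟩
    have hedge : ∃ x y, G.Adj x y ∧ α x < α y := by
      by_contra hcon
      push Not at hcon
      apply hreg
      apply h.reg_of_const
      intro x y hxy
      exact le_antisymm (hcon y x hxy.symm) (hcon x y hxy)
    obtain ⟨x, y, hxy, hlt⟩ := hedge
    have hc : ∀ u v, G.Adj u v → α u ≠ α v → α u * α v = α x * α y := by
      have h0 : ∀ u v, G.Adj u v → α u ≠ α v → α u * α v = -(θ1 + θ2) := by
        intro u v huv hne
        have h1 := h.adj u v huv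
        have h2 : cd G u v = 0 := by
          by_contra h3
          obtain ⟨z, hz⟩ := Finset.card_pos.mp (Nat.pos_of_ne_zero h3)
          rw [Finset.mem_inter, SimpleGraph.mem_neighborFinset,
            SimpleGraph.mem_neighborFinset] at hz
          exact hne (htri' u v z huv hz.1 hz.2)
        rw [h2] at h1
        push_cast at h1
        linarith
      intro u v huv hne
      rw [h0 u v huv hne, h0 x y hxy hlt.ne]
    have htwo : ∀ v, α v = α x ∨ α v = α y := by
      intro v
      refine conn_prop h.conn (fun z => α z = α x ∨ α z = α y) ?_ x v (Or.inl rfl)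
      intro u w huw hu
      by_cases huw' : α u = α w
      · rw [← huw']; exact hu
      · have h1 := hc u w huw huw'
        rcases hu with hu | hu
        · right
          rw [hu] at h1
          exact mul_left_cancel₀ (h.pos x).ne' h1
        · left
          rw [hu, mul_comm (α x)] at h1
          exact mul_left_cancel₀ (h.pos y).ne' h1
    have hind : ∀ u v, α u = α x → α v = α x → ¬ G.Adj u v := by
      intro u v hu hv huv
      have h1 := h.adj u v huv
      have h2 := h.adj x y hxy
      have h3 : cd G x y = 0 := by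
        by_contra h3
        obtain ⟨z, hz⟩ := Finset.card_pos.mp (Nat.pos_of_ne_zero h3)
        rw [Finset.mem_inter, SimpleGraph.mem_neighborFinset,
          SimpleGraph.mem_neighborFinset] at hz
        exact hlt.ne (htri' x y z hxy hz.1 hz.2)
      rw [h3] at h2
      push_cast at h2
      rw [hu, hv] at h1
      have h4 : (0 : ℝ) ≤ cd G u v := Nat.cast_nonneg _
      have h5 : 0 < α x * (α y - α x) := mul_pos (h.pos x) (by linarith)
      nlinarith
    by_cases hA : ∃ u, u ≠ x ∧ α u = α x
    · obtain ⟨u, hux, hu⟩ := hA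
      have h1 := h.nadj u x hux (hind u x hu rfl)
      apply hfin x
      rw [hu] at h1
      have : α x ^ 2 = (cd G u x : ℝ) := by rw [h1]; ring
      rw [this]; exact nat_mem _
    · push Not at hA
      by_cases hB : ∃ w, w ≠ y ∧ G.Adj x w
      · obtain ⟨w, hwy, hw⟩ := hB
        have hnadj : ¬ G.Adj w y := by
          intro hwy'
          have h1 := htri' x y w hxy hw hwy'.symm
          exact hlt.ne h1
        have h1 := h.nadj w y hwy hnadj
        have h2 : α w = α y := (htwo w).resolve_left (hA w hw.ne')
        apply hfin y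
        rw [h2] at h1
        have : α y ^ 2 = (cd G w y : ℝ) := by rw [h1]; ring
        rw [this]; exact nat_mem _
      · push Not at hB
        exfalso
        have hNx : G.neighborFinset x = {y} := by
          ext w
          rw [SimpleGraph.mem_neighborFinset, Finset.mem_singleton]
          constructor
          · intro hw
            by_contra hne
            exact hB w hne hw
          · rintro rfl; exact hxy
        have hyall : ∀ z, z ≠ y → G.Adj y z := by
          intro z hz
          by_cases hzx : z = x
          · rw [hzx]; exact hxy.symm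
          · have hnadj : ¬ G.Adj x z := fun h' => hB z hz h'
            obtain ⟨w, hw1, hw2⟩ := h.cd_pos_nonadj x z (Ne.symm hzx) hnadj
            have : w = y := by
              by_contra hne
              exact hB w hne hw1
            rw [this] at hw2
            exact hw2.symm
        have hNy : G.neighborFinset y = Finset.univ.erase y := by
          ext w
          rw [SimpleGraph.mem_neighborFinset, Finset.mem_erase]
          constructor
          · intro hw; exact ⟨hw.ne', Finset.mem_univ _⟩
          · intro hw; exact hyall w hw.1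
        have hdy : G.degree y = Fintype.card V - 1 := by
          rw [← SimpleGraph.card_neighborFinset_eq_degree, hNy,
            Finset.card_erase_of_mem (Finset.mem_univ _), Finset.card_univ]
        have hdx : G.degree x = 1 := by
          rw [← SimpleGraph.card_neighborFinset_eq_degree, hNx, Finset.card_singleton]
        by_cases hz : ∃ z, z ≠ x ∧ z ≠ y
        · obtain ⟨z, hzx, hzy⟩ := hz
          have hαz : α z = α y := (htwo z).resolve_left (hA z hzx)
          have hdz : G.degree z = G.degree y := by
            have h1 := h.diag z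
            have h2 := h.diag y
            rw [hαz, ← h2] at h1
            exact_mod_cast h1
          have hsub : G.neighborFinset z ⊆ (Finset.univ.erase z).erase x := by
            intro w hw
            rw [SimpleGraph.mem_neighborFinset] at hw
            rw [Finset.mem_erase, Finset.mem_erase]
            refine ⟨?_, hw.ne', Finset.mem_univ _⟩
            rintro rfl
            exact hB z hzy hw.symm
          have h1 := Finset.card_le_card hsub
          rw [Finset.card_erase_of_mem (by simp [Ne.symm hzx]),
            Finset.card_erase_of_mem (Finset.mem_univ _), Finset.card_univ,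
            SimpleGraph.card_neighborFinset_eq_degree, hdz, hdy] at h1
          have h2 : 1 ≤ G.degree y := by
            rw [← SimpleGraph.card_neighborFinset_eq_degree]
            exact Finset.card_pos.mpr ⟨x, by
              rw [SimpleGraph.mem_neighborFinset]; exact hxy.symm⟩
          omega
        · push Not at hz
          have hNy2 : G.neighborFinset y = {x} := by
            ext w
            rw [SimpleGraph.mem_neighborFinset, Finset.mem_singleton]
            constructor
            · intro hw
              by_contra hne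
              exact hw.ne' (hz w hne)
            · rintro rfl; exact hxy.symm
          have hdy1 : G.degree y = 1 := by
            rw [← SimpleGraph.card_neighborFinset_eq_degree, hNy2, Finset.card_singleton]
          have h1 := h.diag x
          have h2 := h.diag y
          rw [hdx] at h1
          rw [hdy1] at h2
          have h3 : α x ^ 2 = α y ^ 2 := by linarith
          have h4 := h.pos x
          nlinarith

/-- integrality of the squares of the Perron weights in the nonregular case -/
lemma Dat.int_tau (h : Dat G T θ0 θ1 θ2 α) (hreg : ¬ ∃ d, G.IsRegularOfDegree d) :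
    ∃ m : ℤ, θ1 * θ2 = m := rat_int _ h.int (h.tau_rat hreg)

lemma Dat.int_sq (h : Dat G T θ0 θ1 θ2 α) (hreg : ¬ ∃ d, G.IsRegularOfDegree d) (x : V) :
    ∃ m : ℤ, α x ^ 2 = m := by
  obtain ⟨m, hm⟩ := h.int_tau hreg
  refine ⟨G.degree x + m, ?_⟩
  have := h.diag x
  push_cast
  rw [← hm]; linarith

lemma Dat.one_le (h : Dat G T θ0 θ1 θ2 α) (hreg : ¬ ∃ d, G.IsRegularOfDegree d) (x : V) :
    1 ≤ α x := by
  obtain ⟨m, hm⟩ := h.int_sq hreg x
  have h1 : 0 < α x ^ 2 := pow_pos (h.pos x) 2
  rw [hm] at h1
  have h2 : 0 < m := by exact_mod_cast h1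
  have h3 : (1 : ℤ) ≤ m := h2
  have h4 : (1 : ℝ) ≤ α x ^ 2 := by rw [hm]; exact_mod_cast h3
  nlinarith [h.pos x]

end TE
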