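import Mathlib
import Pool.Agent.Helper85.TE.Defs

set_option autoImplicit false
set_option linter.unusedSectionVars false
set_option linter.unusedSimpArgs false

namespace TE

open Finset

variable {V : Type*} [Fintype V] [DecidableEq V]

/-- indicator -/
def ind (P : Finset V) (x : V) : ℝ := if x ∈ P then 1 else 0

/-- number of ordered adjacent pairs -/
def EE (G : SimpleGraph V) [DecidableRel G.Adj] (P Q : Finset V) : ℝ :=
  ∑ x ∈ P, ∑ y ∈ Q, ad G x y

lemma EE_eq (G : SimpleGraph V) [DecidableRel G.Adj] (P Q : Finset V) :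
    ∑ x, ∑ y, ind P x * (ad G x y * ind Q y) = EE G P Q := by
  unfold EE ind
  have h1 : ∀ x, ∑ y, (if x ∈ P then (1 : ℝ) else 0) * (ad G x y * (if y ∈ Q then (1 : ℝ) else 0))
      = if x ∈ P then ∑ y ∈ Q, ad G x y else 0 := by
    intro x
    split_ifs with h
    · simp only [one_mul, mul_ite, mul_one, mul_zero]
      rw [Finset.sum_ite_mem]; simp
    · simp
  rw [Finset.sum_congr rfl fun x _ => h1 x, Finset.sum_ite_mem]
  simp

lemma EE_eq' (G : SimpleGraph V) [DecidableRel G.Adj] (P Q : Finset V) :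
    ∑ x, ind P x * ∑ y, (ad G x y * ind Q y) = EE G P Q := by
  rw [← EE_eq]
  exact Finset.sum_congr rfl fun x _ => Finset.mul_sum _ _ _

lemma EE_symm (G : SimpleGraph V) [DecidableRel G.Adj] (P Q : Finset V) :
    EE G P Q = EE G Q P := by
  unfold EE
  rw [Finset.sum_comm]
  refine Finset.sum_congr rfl fun x _ => Finset.sum_congr rfl fun y _ => ?_
  unfold ad
  simp [G.adj_comm]

/-- clique -/
def Clq (G : SimpleGraph V) (C : Finset V) : Prop := ∀ u ∈ C, ∀ v ∈ C, u ≠ v → G.Adj u v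

/-- independent set -/
def Idp (G : SimpleGraph V) (C : Finset V) : Prop := ∀ u ∈ C, ∀ v ∈ C, ¬ G.Adj u v

lemma EE_clq {G : SimpleGraph V} [DecidableRel G.Adj] {P : Finset V} (h : Clq G P) :
    EE G P P = (P.card : ℝ) * P.card - P.card := by
  unfold EE
  have h1 : ∀ x ∈ P, ∑ y ∈ P, ad G x y = (P.card : ℝ) - 1 := by
    intro x hx
    rw [← Finset.add_sum_erase _ _ hx]
    have e1 : ad G x x = 0 := by unfold ad; simp
    have e2 : ∑ y ∈ P.erase x, ad G x y = ∑ y ∈ P.erase x, (1 : ℝ) := by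
      refine Finset.sum_congr rfl fun y hy => ?_
      rw [Finset.mem_erase] at hy
      unfold ad
      rw [if_pos (h x hx y hy.2 (Ne.symm hy.1))]
    rw [e1, e2, Finset.sum_const, Finset.card_erase_of_mem hx, nsmul_eq_mul, mul_one, zero_add,
      Nat.cast_sub (Finset.card_pos.mpr ⟨x, hx⟩)]
    simp
  rw [Finset.sum_congr rfl h1, Finset.sum_const, nsmul_eq_mul]
  ring

lemma EE_idp {G : SimpleGraph V} [DecidableRel G.Adj] {P : Finset V} (h : Idp G P) :
    EE G P P = 0 := by
  unfold EE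
  refine Finset.sum_eq_zero fun x hx => Finset.sum_eq_zero fun y hy => ?_
  unfold ad
  rw [if_neg (h x hx y hy)]

lemma EE_join {G : SimpleGraph V} [DecidableRel G.Adj] {P Q : Finset V}
    (h : ∀ x ∈ P, ∀ y ∈ Q, G.Adj x y) : EE G P Q = (P.card : ℝ) * Q.card := by
  unfold EE
  have h1 : ∀ x ∈ P, ∑ y ∈ Q, ad G x y = (Q.card : ℝ) := by
    intro x hx
    rw [Finset.sum_congr rfl fun y hy => show ad G x y = 1 by unfold ad; rw [if_pos (h x hx y hy)]]
    simp
  rw [Finset.sum_congr rfl h1, Finset.sum_const, nsmul_eq_mul]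

lemma EE_anti {G : SimpleGraph V} [DecidableRel G.Adj] {P Q : Finset V}
    (h : ∀ x ∈ P, ∀ y ∈ Q, ¬ G.Adj x y) : EE G P Q = 0 := by
  unfold EE
  refine Finset.sum_eq_zero fun x hx => Finset.sum_eq_zero fun y hy => ?_
  unfold ad
  rw [if_neg (h x hx y hy)]

lemma quad3 {G : SimpleGraph V} [DecidableRel G.Adj] {T : ℝ}
    (hpsd : ∀ v : V → ℝ, -T * ∑ x, v x ^ 2 ≤ ∑ x, ∑ y, v x * (ad G x y * v y))
    (P Q R : Finset V) (hPQ : Disjoint P Q) (hPR : Disjoint P R) (hQR : Disjoint Q R)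
    (c d e : ℝ) :
    -T * (c ^ 2 * P.card + d ^ 2 * Q.card + e ^ 2 * R.card) ≤
      c ^ 2 * EE G P P + d ^ 2 * EE G Q Q + e ^ 2 * EE G R R + 2 * c * d * EE G P Q
        + 2 * c * e * EE G P R + 2 * d * e * EE G Q R := by
  have h := hpsd (fun x => c * ind P x + d * ind Q x + e * ind R x)
  have hsq : ∀ x, (c * ind P x + d * ind Q x + e * ind R x) ^ 2 =
      c ^ 2 * ind P x + d ^ 2 * ind Q x + e ^ 2 * ind R x := by
    intro x
    unfold ind
    have h1 : x ∈ P → x ∉ Q := fun h => Finset.disjoint_left.mp hPQ h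
    have h2 : x ∈ P → x ∉ R := fun h => Finset.disjoint_left.mp hPR h
    have h3 : x ∈ Q → x ∉ R := fun h => Finset.disjoint_left.mp hQR h
    by_cases hP : x ∈ P <;> by_cases hQ : x ∈ Q <;> by_cases hR : x ∈ R <;>
      simp_all
  have hcard : ∀ S : Finset V, ∑ x, ind S x = (S.card : ℝ) := by
    intro S; unfold ind; simp
  have e1 : ∑ x, (c * ind P x + d * ind Q x + e * ind R x) ^ 2 =
      c ^ 2 * P.card + d ^ 2 * Q.card + e ^ 2 * R.card := by
    rw [Finset.sum_congr rfl fun x _ => hsq x, Finset.sum_add_distrib, Finset.sum_add_distrib,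
      ← Finset.mul_sum, ← Finset.mul_sum, ← Finset.mul_sum, hcard, hcard, hcard]
  have e2 : ∑ x, ∑ y, (c * ind P x + d * ind Q x + e * ind R x) *
      (ad G x y * (c * ind P y + d * ind Q y + e * ind R y)) =
      c ^ 2 * EE G P P + d ^ 2 * EE G Q Q + e ^ 2 * EE G R R + c * d * EE G P Q
        + c * d * EE G Q P + c * e * EE G P R + c * e * EE G R P
        + d * e * EE G Q R + d * e * EE G R Q := by
    have : ∀ x y, (c * ind P x + d * ind Q x + e * ind R x) *
      (ad G x y * (c * ind P y + d * ind Q y + e * ind R y)) =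
      c ^ 2 * (ind P x * (ad G x y * ind P y)) + d ^ 2 * (ind Q x * (ad G x y * ind Q y))
      + e ^ 2 * (ind R x * (ad G x y * ind R y))
      + c * d * (ind P x * (ad G x y * ind Q y)) + c * d * (ind Q x * (ad G x y * ind P y))
      + c * e * (ind P x * (ad G x y * ind R y)) + c * e * (ind R x * (ad G x y * ind P y))
      + d * e * (ind Q x * (ad G x y * ind R y)) + d * e * (ind R x * (ad G x y * ind Q y)) := by
      intro x y; ring
    simp only [this, Finset.sum_add_distrib, ← Finset.mul_sum, EE_eq']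
  rw [e1, e2, EE_symm G Q P, EE_symm G R P, EE_symm G R Q] at h
  linarith

/-- star bound -/
lemma star_bound {G : SimpleGraph V} [DecidableRel G.Adj] {T : ℝ} (hT : 1 ≤ T)
    (hpsd : ∀ v : V → ℝ, -T * ∑ x, v x ^ 2 ≤ ∑ x, ∑ y, v x * (ad G x y * v y))
    (x : V) (I : Finset V) (hI : Idp G I) (hx : ∀ y ∈ I, G.Adj x y) : (I.card : ℝ) ≤ T ^ 2 := by
  have hT0 : 0 < T := by linarith
  have hdis : Disjoint ({x} : Finset V) I := by
    rw [Finset.disjoint_singleton_left]
    intro h
    exact (hx x h).ne rfl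
  have h := quad3 hpsd {x} I ∅ hdis (by simp) (by simp) (-(I.card : ℝ) / T) 1 0
  have e1 : EE G {x} {x} = 0 := EE_anti (by simp)
  have e2 : EE G I I = 0 := EE_idp hI
  have e3 : EE G {x} I = 1 * I.card := by
    rw [EE_join (by simpa using hx)]; simp
  rw [e1, e2, e3] at h
  simp only [Finset.card_singleton, Nat.cast_one, mul_one, one_pow, one_mul, Finset.card_empty,
    Nat.cast_zero, mul_zero, add_zero, zero_mul, ne_eq, OfNat.ofNat_ne_zero, not_false_eq_true,
    zero_pow] at h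
  rcases Nat.eq_zero_or_pos I.card with h0 | h0
  · rw [h0]; simp; positivity
  · have h0' : (0 : ℝ) < I.card := by exact_mod_cast h0
    have h1 : -T * ((-(I.card : ℝ) / T) ^ 2 + I.card) = -(I.card : ℝ) ^ 2 / T - T * I.card := by
      field_simp
      ring
    have h2 : 2 * (-(I.card : ℝ) / T) * (I.card : ℝ) = -2 * (I.card : ℝ) ^ 2 / T := by
      field_simp
    have h3 : (I.card : ℝ) ^ 2 / T ≤ T * I.card := by
      have e4 : (-(I.card : ℝ)) ^ 2 / T = (I.card : ℝ) ^ 2 / T := by ring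
      have e5 : -2 * (I.card : ℝ) ^ 2 / T = -2 * ((I.card : ℝ) ^ 2 / T) := by ring
      have e6 : -(I.card : ℝ) ^ 2 / T = - ((I.card : ℝ) ^ 2 / T) := by ring
      rw [e6] at h1
      rw [e5] at h2
      linarith
    rw [div_le_iff₀ hT0] at h3
    nlinarith

/-- the dichotomy for a vertex and a clique, in the form used below -/
lemma dich_aux {G : SimpleGraph V} [DecidableRel G.Adj] {T : ℝ} (hT : 1 ≤ T)
    (hpsd : ∀ v : V → ℝ, -T * ∑ x, v x ^ 2 ≤ ∑ x, ∑ y, v x * (ad G x y * v y))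
    (R : ℕ) (hR : 2 * T ^ 2 < R) (x : V) (J L : Finset V) (hJL : Clq G (J ∪ L))
    (hd : Disjoint J L) (hxJ : ∀ y ∈ J, G.Adj x y) (hxL : ∀ y ∈ L, ¬ G.Adj x y) (hxL' : x ∉ L)
    (hJ : J.card = R) (hL : L.card = R) : False := by
  have hT0 : 0 < T := by linarith
  have hdx1 : Disjoint J {x} := by
    rw [Finset.disjoint_singleton_right]
    intro h
    exact (hxJ x h).ne rfl
  have hdx2 : Disjoint L {x} := by
    rw [Finset.disjoint_singleton_right]; exact hxL'
  have h := quad3 hpsd J L {x} hd hdx1 hdx2 1 (-1) (-(R : ℝ) / T)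
  have e1 : EE G J J = (R : ℝ) * R - R := by
    rw [EE_clq, hJ]
    intro u hu v hv huv
    exact hJL u (Finset.mem_union_left _ hu) v (Finset.mem_union_left _ hv) huv
  have e2 : EE G L L = (R : ℝ) * R - R := by
    rw [EE_clq, hL]
    intro u hu v hv huv
    exact hJL u (Finset.mem_union_right _ hu) v (Finset.mem_union_right _ hv) huv
  have e3 : EE G {x} {x} = 0 := EE_anti (by simp)
  have e4 : EE G J L = (R : ℝ) * R := by
    rw [EE_join, hJ, hL]
    intro u hu v hv
    refine hJL u (Finset.mem_union_left _ hu) v (Finset.mem_union_right _ hv) ?_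
    rintro rfl
    exact Finset.disjoint_left.mp hd hu hv
  have e5 : EE G J {x} = (R : ℝ) := by
    rw [EE_join, hJ]
    · simp
    · intro u hu v hv
      rw [Finset.mem_singleton] at hv
      rw [hv]
      exact (hxJ u hu).symm
  have e6 : EE G L {x} = 0 := by
    apply EE_anti
    intro u hu v hv
    rw [Finset.mem_singleton] at hv
    rw [hv]
    exact fun h => hxL u hu h.symm
  rw [e1, e2, e3, e4, e5, e6, hJ, hL, Finset.card_singleton] at h
  have hR0 : (0 : ℝ) < R := by nlinarith [sq_nonneg T]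
  have h1 : -T * (1 ^ 2 * (R : ℝ) + (-1) ^ 2 * R + (-(R : ℝ) / T) ^ 2 * ((1 : ℕ) : ℝ)) =
      -2 * T * R - (R : ℝ) ^ 2 / T := by
    field_simp
    push_cast
    ring
  rw [h1] at h
  have h2 : 2 * 1 * (-(R : ℝ) / T) * (R : ℝ) = -2 * ((R : ℝ) ^ 2 / T) := by
    field_simp
  rw [h2] at h
  have h3 : (R : ℝ) ^ 2 / T ≤ 2 * T * R - 2 * R := by nlinarith
  rw [div_le_iff₀ hT0] at h3
  have h4 : (R : ℝ) * R ≤ R * (2 * T ^ 2) := by nlinarith
  have h5 := le_of_mul_le_mul_left h4 hR0
  linarith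

end TE
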