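import Mathlib
import Pool.Agent.Helper85.TE.Comb

set_option autoImplicit false
set_option linter.unusedSectionVars false
set_option linter.unusedSimpArgs false

namespace TE

open Finset

variable {V : Type*} [Fintype V] [DecidableEq V]

/-- upper bounds for Ramsey numbers -/
def ram : ℕ → ℕ → ℕ
  | 0, _ => 0
  | _ + 1, 0 => 0
  | a + 1, b + 1 => ram a (b + 1) + ram (a + 1) b + 1
termination_by a b => a + b

lemma ramsey_aux (G : SimpleGraph V) [DecidableRel G.Adj] (n : ℕ) : ∀ (a b : ℕ), a + b = n →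
    ∀ (S : Finset V), ram a b ≤ S.card →
    (∃ C ⊆ S, C.card = a ∧ Clq G C) ∨ (∃ I ⊆ S, I.card = b ∧ Idp G I) := by
  induction n using Nat.strong_induction_on with
  | _ n ih =>
    intro a b hab S hS
    rcases a with _ | a
    · left
      exact ⟨∅, by simp, by simp, by intro u hu; simp at hu⟩
    rcases b with _ | b
    · right
      exact ⟨∅, by simp, by simp, by intro u hu; simp at hu⟩
    rw [ram] at hS
    have hne : S.Nonempty := Finset.card_pos.mp (by omega)
    obtain ⟨v, hv⟩ := hne
    have hsplit : ((S.erase v).filter (fun y => G.Adj v y)).card +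
        ((S.erase v).filter (fun y => ¬ G.Adj v y)).card = S.card - 1 := by
      rw [Finset.card_filter_add_card_filter_not, Finset.card_erase_of_mem hv]
    by_cases h1 : ram a (b + 1) ≤ ((S.erase v).filter (fun y => G.Adj v y)).card
    · rcases ih (a + (b + 1)) (by omega) a (b + 1) rfl _ h1 with ⟨C, hC, hCc, hCq⟩ | ⟨I, hI, hIc, hIq⟩
      · left
        refine ⟨insert v C, ?_, ?_, ?_⟩
        · intro y hy
          rcases Finset.mem_insert.mp hy with rfl | hy
          · exact hv
          · exact Finset.mem_of_mem_erase (Finset.mem_filter.mp (hC hy)).1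
        · rw [Finset.card_insert_of_notMem, hCc]
          intro h
          have := (Finset.mem_filter.mp (hC h)).1
          simp at this
        · intro u hu w hw huw
          rcases Finset.mem_insert.mp hu with hu1 | hu1 <;>
            rcases Finset.mem_insert.mp hw with hw1 | hw1
          · exact absurd (hu1.trans hw1.symm) huw
          · rw [hu1]; exact (Finset.mem_filter.mp (hC hw1)).2
          · rw [hw1]; exact (Finset.mem_filter.mp (hC hu1)).2.symm
          · exact hCq u hu1 w hw1 huw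
      · right
        refine ⟨I, ?_, hIc, hIq⟩
        intro y hy
        exact Finset.mem_of_mem_erase (Finset.mem_filter.mp (hI hy)).1
    · have h2 : ram (a + 1) b ≤ ((S.erase v).filter (fun y => ¬ G.Adj v y)).card := by omega
      rcases ih ((a + 1) + b) (by omega) (a + 1) b rfl _ h2 with ⟨C, hC, hCc, hCq⟩ | ⟨I, hI, hIc, hIq⟩
      · left
        refine ⟨C, ?_, hCc, hCq⟩
        intro y hy
        exact Finset.mem_of_mem_erase (Finset.mem_filter.mp (hC hy)).1
      · right
        refine ⟨insert v I, ?_, ?_, ?_⟩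
        · intro y hy
          rcases Finset.mem_insert.mp hy with rfl | hy
          · exact hv
          · exact Finset.mem_of_mem_erase (Finset.mem_filter.mp (hI hy)).1
        · rw [Finset.card_insert_of_notMem, hIc]
          intro h
          have := (Finset.mem_filter.mp (hI h)).1
          simp at this
        · intro u hu w hw huw
          rcases Finset.mem_insert.mp hu with hu1 | hu1 <;>
            rcases Finset.mem_insert.mp hw with hw1 | hw1
          · rw [hu1, hw1] at huw; exact G.irrefl huw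
          · rw [hu1] at huw; exact (Finset.mem_filter.mp (hI hw1)).2 huw
          · rw [hw1] at huw; exact (Finset.mem_filter.mp (hI hu1)).2 huw.symm
          · exact hIq u hu1 w hw1 huw

lemma ramsey (G : SimpleGraph V) [DecidableRel G.Adj] (a b : ℕ) (S : Finset V)
    (h : ram a b ≤ S.card) :
    (∃ C ⊆ S, C.card = a ∧ Clq G C) ∨ (∃ I ⊆ S, I.card = b ∧ Idp G I) :=
  ramsey_aux G (a + b) a b rfl S h

/-- no large induced stars, and the clique dichotomy -/
structure Cnd (G : SimpleGraph V) [DecidableRel G.Adj] (s0 R0 : ℕ) : Prop where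
  star : ∀ (x : V) (I : Finset V), Idp G I → (∀ y ∈ I, G.Adj x y) → I.card < s0
  dich : ∀ (x : V) (J L : Finset V), Clq G (J ∪ L) → Disjoint J L → (∀ y ∈ J, G.Adj x y) →
    (∀ y ∈ L, ¬ G.Adj x y) → x ∉ L → J.card = R0 → L.card = R0 → False
  R1 : 1 ≤ R0
  s1 : 1 ≤ s0

variable {G : SimpleGraph V} [DecidableRel G.Adj] {s0 R0 : ℕ}

lemma Cnd.dich' (h : Cnd G s0 R0) (x : V) (C : Finset V) (hC : Clq G C) (hx : x ∉ C) :
    (C.filter (fun y => G.Adj x y)).card < R0 ∨ (C.filter (fun y => ¬ G.Adj x y)).card < R0 := by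
  by_contra hcon
  push Not at hcon
  obtain ⟨J, hJ, hJc⟩ := Finset.exists_subset_card_eq hcon.1
  obtain ⟨L, hL, hLc⟩ := Finset.exists_subset_card_eq hcon.2
  refine h.dich x J L ?_ ?_ ?_ ?_ ?_ hJc hLc
  · intro u hu v hv huv
    have h1 : ∀ w ∈ J ∪ L, w ∈ C := by
      intro w hw
      rcases Finset.mem_union.mp hw with hw | hw
      · exact (Finset.mem_filter.mp (hJ hw)).1
      · exact (Finset.mem_filter.mp (hL hw)).1
    exact hC u (h1 u hu) v (h1 v hv) huv
  · rw [Finset.disjoint_left]
    intro w hw hw'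
    exact (Finset.mem_filter.mp (hL hw')).2 (Finset.mem_filter.mp (hJ hw)).2
  · intro y hy; exact (Finset.mem_filter.mp (hJ hy)).2
  · intro y hy; exact (Finset.mem_filter.mp (hL hy)).2
  · intro hx'; exact hx (Finset.mem_filter.mp (hL hx')).1

lemma Cnd.clique_in (h : Cnd G s0 R0) (x : V) (S : Finset V) (hS : ∀ y ∈ S, G.Adj x y) (a : ℕ)
    (ha : ram a s0 ≤ S.card) : ∃ C ⊆ S, C.card = a ∧ Clq G C := by
  rcases ramsey G a s0 S ha with h1 | ⟨I, hI, hIc, hIq⟩
  · exact h1
  · exfalso
    have := h.star x I hIq (fun y hy => hS y (hI hy))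
    omega

/-- first selection -/
lemma sel1 (C : Finset V) (s : ℕ) (W : V → Finset V) (k : ℕ) : ∀ (B : Finset V), B ⊆ C →
    (∀ z ∈ B, (W z).card ≤ s) →
    (∀ z ∈ B, ∀ w ∈ W z, (C.filter (fun y => G.Adj w y)).card < R0) →
    k * (R0 * s + 1) ≤ B.card →
    ∃ L : List V, L.length = k ∧ (∀ z ∈ L, z ∈ B) ∧
      L.Pairwise (fun z z' => ∀ w ∈ W z, ¬ G.Adj w z') := by
  induction k with
  | zero => intro B _ _ _ _; exact ⟨[], rfl, by simp, List.Pairwise.nil⟩
  | succ k ih =>
    intro B hBC hs hlow hB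
    have hne : B.Nonempty := by
      apply Finset.card_pos.mp
      have : 1 ≤ (k + 1) * (R0 * s + 1) := Nat.one_le_iff_ne_zero.mpr (by positivity)
      omega
    obtain ⟨z0, hz0⟩ := hne
    set B' := B.filter (fun z => ∀ w ∈ W z0, ¬ G.Adj w z) with hB'
    have hex : (B.filter (fun z => ¬ ∀ w ∈ W z0, ¬ G.Adj w z)).card ≤ R0 * s := by
      have h1 : B.filter (fun z => ¬ ∀ w ∈ W z0, ¬ G.Adj w z) ⊆
          (W z0).biUnion (fun w => C.filter (fun y => G.Adj w y)) := by
        intro z hz
        rw [Finset.mem_filter] at hz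
        obtain ⟨hzB, hz2⟩ := hz
        push Not at hz2
        obtain ⟨w, hw, hwz⟩ := hz2
        exact Finset.mem_biUnion.mpr ⟨w, hw, Finset.mem_filter.mpr ⟨hBC hzB, hwz⟩⟩
      calc _ ≤ ((W z0).biUnion (fun w => C.filter (fun y => G.Adj w y))).card :=
            Finset.card_le_card h1
        _ ≤ ∑ w ∈ W z0, (C.filter (fun y => G.Adj w y)).card := Finset.card_biUnion_le
        _ ≤ ∑ w ∈ W z0, R0 := Finset.sum_le_sum fun w hw => (hlow z0 hz0 w hw).le
        _ = (W z0).card * R0 := by rw [Finset.sum_const, smul_eq_mul]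
        _ ≤ s * R0 := Nat.mul_le_mul_right _ (hs z0 hz0)
        _ = R0 * s := Nat.mul_comm _ _
    have hsum : B'.card + (B.filter (fun z => ¬ ∀ w ∈ W z0, ¬ G.Adj w z)).card = B.card :=
      Finset.card_filter_add_card_filter_not _
    have hB'c : k * (R0 * s + 1) ≤ B'.card := by
      have : (k + 1) * (R0 * s + 1) = k * (R0 * s + 1) + R0 * s + 1 := by ring
      omega
    obtain ⟨L, hL1, hL2, hL3⟩ := ih B' ((Finset.filter_subset _ _).trans hBC)
      (fun z hz => hs z (Finset.mem_filter.mp hz).1)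
      (fun z hz => hlow z (Finset.mem_filter.mp hz).1) hB'c
    refine ⟨z0 :: L, by simp [hL1], ?_, ?_⟩
    · intro z hz
      rcases List.mem_cons.mp hz with rfl | hz
      · exact hz0
      · exact (Finset.mem_filter.mp (hL2 z hz)).1
    · rw [List.pairwise_cons]
      exact ⟨fun z hz => (Finset.mem_filter.mp (hL2 z hz)).2, hL3⟩

/-- second selection -/
lemma Cnd.sel2 (h : Cnd G s0 R0) (k : ℕ) : ∀ (L : List (V × Finset V)), L.length = k →
    (∀ p ∈ L, Clq G p.2 ∧ (∀ w ∈ p.2, G.Adj p.1 w) ∧ R0 * k + R0 * R0 + R0 ≤ p.2.card) →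
    L.Pairwise (fun p q => q.1 ∉ p.2 ∧ ∀ w ∈ p.2, ¬ G.Adj w q.1) →
    ∃ I : Finset V, I.card = k ∧ Idp G I ∧ ∀ w ∈ I, ∃ p ∈ L, w ∈ p.2 := by
  induction k with
  | zero =>
    intro L _ _ _
    exact ⟨∅, rfl, by intro u hu; simp at hu, by intro u hu; simp at hu⟩
  | succ k ih =>
    intro L hlen h1 h2
    rcases L with _ | ⟨p0, L⟩
    · simp at hlen
    have hlen' : L.length = k := by simpa using hlen
    rw [List.pairwise_cons] at h2
    obtain ⟨h2a, h2b⟩ := h2
    have hp0 := h1 p0 (by simp)
    -- high elements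
    have hhigh : ∀ q ∈ L, (p0.2.filter
        (fun w => (q.2.filter (fun y => ¬ G.Adj w y)).card < R0)).card ≤ R0 := by
      intro q hq
      by_contra hcon
      push Not at hcon
      obtain ⟨P, hP, hPc⟩ := Finset.exists_subset_card_eq hcon.le
      have hq1 := h1 q (by simp [hq])
      have hq2 := h2a q hq
      set Q' := q.2.filter (fun y => ∀ w ∈ P, G.Adj w y) with hQ'
      have hbad : (q.2.filter (fun y => ¬ ∀ w ∈ P, G.Adj w y)).card ≤ R0 * R0 := by
        have hs : q.2.filter (fun y => ¬ ∀ w ∈ P, G.Adj w y) ⊆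
            P.biUnion (fun w => q.2.filter (fun y => ¬ G.Adj w y)) := by
          intro y hy
          rw [Finset.mem_filter] at hy
          obtain ⟨hy1, hy2⟩ := hy
          push Not at hy2
          obtain ⟨w, hw, hwy⟩ := hy2
          exact Finset.mem_biUnion.mpr ⟨w, hw, Finset.mem_filter.mpr ⟨hy1, hwy⟩⟩
        calc _ ≤ (P.biUnion (fun w => q.2.filter (fun y => ¬ G.Adj w y))).card :=
              Finset.card_le_card hs
          _ ≤ ∑ w ∈ P, (q.2.filter (fun y => ¬ G.Adj w y)).card := Finset.card_biUnion_le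
          _ ≤ ∑ w ∈ P, R0 := Finset.sum_le_sum fun w hw => (Finset.mem_filter.mp (hP hw)).2.le
          _ = R0 * R0 := by rw [Finset.sum_const, smul_eq_mul, hPc]
      have hsum : Q'.card + (q.2.filter (fun y => ¬ ∀ w ∈ P, G.Adj w y)).card = q.2.card :=
        Finset.card_filter_add_card_filter_not _
      have hQ'c : R0 ≤ Q'.card := by
        have := hq1.2.2
        omega
      obtain ⟨Q, hQ, hQc⟩ := Finset.exists_subset_card_eq hQ'c
      have hPp : ∀ w ∈ P, w ∈ p0.2 := fun w hw => (Finset.mem_filter.mp (hP hw)).1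
      have hQq : ∀ w ∈ Q, w ∈ q.2 := fun w hw => (Finset.mem_filter.mp (hQ hw)).1
      have hdis : Disjoint Q P := by
        rw [Finset.disjoint_left]
        intro w hwQ hwP
        exact hq2.2 w (hPp w hwP) (hq1.2.1 w (hQq w hwQ)).symm
      refine h.dich q.1 Q P ?_ hdis ?_ ?_ ?_ hQc hPc
      · intro u hu v hv huv
        rcases Finset.mem_union.mp hu with hu | hu <;> rcases Finset.mem_union.mp hv with hv | hv
        · exact hq1.1 u (hQq u hu) v (hQq v hv) huv
        · exact ((Finset.mem_filter.mp (hQ hu)).2 v hv).symm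
        · exact (Finset.mem_filter.mp (hQ hv)).2 u hu
        · exact hp0.1 u (hPp u hu) v (hPp v hv) huv
      · intro y hy; exact hq1.2.1 y (hQq y hy)
      · intro y hy hadj; exact hq2.2 y (hPp y hy) hadj.symm
      · intro hmem; exact hq2.1 (hPp _ hmem)
    -- choose w0
    obtain ⟨w0, hw0, hw0'⟩ : ∃ w0 ∈ p0.2, ∀ q ∈ L,
        ¬ (q.2.filter (fun y => ¬ G.Adj w0 y)).card < R0 := by
      by_contra hcon
      push Not at hcon
      have hsub : p0.2 ⊆ L.toFinset.biUnion (fun q => p0.2.filter
        (fun w => (q.2.filter (fun y => ¬ G.Adj w y)).card < R0)) := by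
        intro w hw
        obtain ⟨q, hq, hq'⟩ := hcon w hw
        exact Finset.mem_biUnion.mpr ⟨q, by simpa using hq, Finset.mem_filter.mpr ⟨hw, hq'⟩⟩
      have hc1 : p0.2.card ≤ k * R0 := by
        calc _ ≤ _ := Finset.card_le_card hsub
          _ ≤ ∑ q ∈ L.toFinset, _ := Finset.card_biUnion_le
          _ ≤ ∑ q ∈ L.toFinset, R0 := Finset.sum_le_sum fun q hq => hhigh q (by simpa using hq)
          _ = L.toFinset.card * R0 := by rw [Finset.sum_const, smul_eq_mul]
          _ ≤ k * R0 := Nat.mul_le_mul_right _ (hlen' ▸ L.toFinset_card_le)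
      have hc2 := hp0.2.2
      have hc3 : R0 * (k + 1) = k * R0 + R0 := by ring
      have := h.R1
      omega
    -- shrink
    obtain ⟨I, hI1, hI2, hI3⟩ := ih
      (L.map (fun q => (q.1, q.2.filter (fun y => ¬ G.Adj w0 y)))) (by simpa using hlen')
      (by
        intro p hp
        rw [List.mem_map] at hp
        obtain ⟨q, hq, rfl⟩ := hp
        have hq1 := h1 q (by simp [hq])
        have hq2 := h2a q hq
        have hw0q : w0 ∉ q.2 := by
          intro hmem
          exact hq2.2 w0 hw0 (hq1.2.1 w0 hmem).symm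
        have hlow : (q.2.filter (fun y => G.Adj w0 y)).card < R0 :=
          (h.dich' w0 q.2 hq1.1 hw0q).resolve_right (hw0' q hq)
        have hsum : (q.2.filter (fun y => G.Adj w0 y)).card +
            (q.2.filter (fun y => ¬ G.Adj w0 y)).card = q.2.card :=
          Finset.card_filter_add_card_filter_not _
        refine ⟨?_, ?_, ?_⟩
        · intro u hu v hv huv
          exact hq1.1 u (Finset.mem_filter.mp hu).1 v (Finset.mem_filter.mp hv).1 huv
        · intro w hw
          exact hq1.2.1 w (Finset.mem_filter.mp hw).1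
        · have := hq1.2.2
          have hc3 : R0 * (k + 1) = R0 * k + R0 := by ring
          simp only
          omega)
      (by
        rw [List.pairwise_map]
        refine h2b.imp ?_
        intro p q hpq
        exact ⟨fun hmem => hpq.1 (Finset.mem_filter.mp hmem).1,
          fun w hw => hpq.2 w (Finset.mem_filter.mp hw).1⟩)
    have hI4 : ∀ w ∈ I, ∃ q ∈ L, w ∈ q.2 ∧ ¬ G.Adj w0 w := by
      intro w hw
      obtain ⟨p, hp, hwp⟩ := hI3 w hw
      rw [List.mem_map] at hp
      obtain ⟨q, hq, rfl⟩ := hp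
      have := Finset.mem_filter.mp hwp
      exact ⟨q, hq, this.1, this.2⟩
    have hw0I : w0 ∉ I := by
      intro hmem
      obtain ⟨q, hq, hwq, _⟩ := hI4 w0 hmem
      exact (h2a q hq).2 w0 hw0 ((h1 q (by simp [hq])).2.1 w0 hwq).symm
    refine ⟨insert w0 I, by rw [Finset.card_insert_of_notMem hw0I, hI1], ?_, ?_⟩
    · intro u hu v hv huv
      rcases Finset.mem_insert.mp hu with hu1 | hu1 <;>
        rcases Finset.mem_insert.mp hv with hv1 | hv1
      · rw [hu1, hv1] at huv; exact G.irrefl huv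
      · obtain ⟨q, hq, _, hn⟩ := hI4 v hv1
        rw [hu1] at huv; exact hn huv
      · obtain ⟨q, hq, _, hn⟩ := hI4 u hu1
        rw [hv1] at huv; exact hn huv.symm
      · exact hI2 u hu1 v hv1 huv
    · intro w hw
      rcases Finset.mem_insert.mp hw with rfl | hw
      · exact ⟨p0, by simp, hw0⟩
      · obtain ⟨q, hq, hwq, _⟩ := hI4 w hw
        exact ⟨q, by simp [hq], hwq⟩

/-- size of the auxiliary cliques -/
def sN (s0 R0 : ℕ) : ℕ := R0 * s0 + R0 * R0 + R0

/-- bound for typical differences of codegrees -/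
def k0 (s0 R0 : ℕ) : ℕ := ram R0 s0 + ram (sN s0 R0) s0

/-- bound for the number of exceptional vertices -/
def b1 (s0 R0 : ℕ) : ℕ := s0 * (R0 * sN s0 R0 + 1)

/-- neighbours of `x` that are neither neighbours of `y` nor equal to `y` -/
def prv (G : SimpleGraph V) [DecidableRel G.Adj] (x y : V) : Finset V :=
  (G.neighborFinset x).filter (fun w => w ≠ y ∧ ¬ G.Adj y w)

theorem Cnd.star_main (h : Cnd G s0 R0) (C : Finset V) (hC : Clq G C)
    (hcard : R0 * R0 + R0 ≤ C.card) (x y : V) (hy : y ∈ C) :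
    (C.filter (fun z => k0 s0 R0 ≤ ((prv G x y).filter (fun w => G.Adj z w)).card)).card
      < b1 s0 R0 := by
  set D := prv G x y with hD
  have hDmem : ∀ w, w ∈ D → G.Adj x w ∧ w ≠ y ∧ ¬ G.Adj y w := by
    intro w hw
    rw [hD, prv, Finset.mem_filter, SimpleGraph.mem_neighborFinset] at hw
    exact hw
  have hDC : ∀ w ∈ D, w ∉ C := by
    intro w hw hwC
    have := hDmem w hw
    exact this.2.2 (hC y hy w hwC this.2.1.symm)
  set H := D.filter (fun w => (C.filter (fun c => ¬ G.Adj w c)).card < R0) with hH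
  have hHc : H.card < ram R0 s0 := by
    by_contra hcon
    push Not at hcon
    obtain ⟨Z, hZ, hZc, hZq⟩ := h.clique_in x H
      (fun w hw => (hDmem w (Finset.mem_filter.mp hw).1).1) R0 hcon
    set C' := C.filter (fun c => ∀ w ∈ Z, G.Adj w c) with hC'
    have hbad : (C.filter (fun c => ¬ ∀ w ∈ Z, G.Adj w c)).card ≤ R0 * R0 := by
      have hs : C.filter (fun c => ¬ ∀ w ∈ Z, G.Adj w c) ⊆
          Z.biUnion (fun w => C.filter (fun c => ¬ G.Adj w c)) := by
        intro c hc
        rw [Finset.mem_filter] at hc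
        obtain ⟨hc1, hc2⟩ := hc
        push Not at hc2
        obtain ⟨w, hw, hwc⟩ := hc2
        exact Finset.mem_biUnion.mpr ⟨w, hw, Finset.mem_filter.mpr ⟨hc1, hwc⟩⟩
      calc _ ≤ (Z.biUnion (fun w => C.filter (fun c => ¬ G.Adj w c))).card :=
            Finset.card_le_card hs
        _ ≤ ∑ w ∈ Z, (C.filter (fun c => ¬ G.Adj w c)).card := Finset.card_biUnion_le
        _ ≤ ∑ w ∈ Z, R0 := Finset.sum_le_sum fun w hw => (Finset.mem_filter.mp (hZ hw)).2.le
        _ = R0 * R0 := by rw [Finset.sum_const, smul_eq_mul, hZc]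
    have hsum : C'.card + (C.filter (fun c => ¬ ∀ w ∈ Z, G.Adj w c)).card = C.card :=
      Finset.card_filter_add_card_filter_not _
    obtain ⟨J, hJ, hJc⟩ := Finset.exists_subset_card_eq (show R0 ≤ C'.card by omega)
    have hJC : ∀ c ∈ J, c ∈ C ∧ ∀ w ∈ Z, G.Adj w c := fun c hc => Finset.mem_filter.mp (hJ hc)
    have hZD : ∀ w ∈ Z, w ∈ D := fun w hw => (Finset.mem_filter.mp (hZ hw)).1
    obtain ⟨w1, hw1⟩ : Z.Nonempty := Finset.card_pos.mp (by have := h.R1; omega)
    refine h.dich y J Z ?_ ?_ ?_ ?_ ?_ hJc hZc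
    · intro u hu v hv huv
      rcases Finset.mem_union.mp hu with hu | hu <;> rcases Finset.mem_union.mp hv with hv | hv
      · exact hC u (hJC u hu).1 v (hJC v hv).1 huv
      · exact ((hJC u hu).2 v hv).symm
      · exact (hJC v hv).2 u hu
      · exact hZq u hu v hv huv
    · rw [Finset.disjoint_left]
      intro w hwJ hwZ
      exact hDC w (hZD w hwZ) (hJC w hwJ).1
    · intro c hc
      refine hC y hy c (hJC c hc).1 ?_
      rintro rfl
      exact (hDmem w1 (hZD w1 hw1)).2.2 ((hJC _ hc).2 w1 hw1).symm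
    · intro w hw; exact (hDmem w (hZD w hw)).2.2
    · intro hyZ; exact (hDmem y (hZD y hyZ)).2.1 rfl
  by_contra hcon
  push Not at hcon
  set B := C.filter (fun z => k0 s0 R0 ≤ (D.filter (fun w => G.Adj z w)).card) with hB
  have hex : ∀ z, ∃ W : Finset V, z ∈ B → (W ⊆ D ∧ (∀ w ∈ W, G.Adj z w) ∧ (∀ w ∈ W, w ∉ H) ∧
      W.card = sN s0 R0 ∧ Clq G W) := by
    intro z
    by_cases hz : z ∈ B
    · have hz2 : k0 s0 R0 ≤ (D.filter (fun w => G.Adj z w)).card := (Finset.mem_filter.mp hz).2
      have hsplit : ((D.filter (fun w => G.Adj z w)).filter (fun w => w ∈ H)).card +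
          ((D.filter (fun w => G.Adj z w)).filter (fun w => ¬ w ∈ H)).card =
          (D.filter (fun w => G.Adj z w)).card := Finset.card_filter_add_card_filter_not _
      have hle : ((D.filter (fun w => G.Adj z w)).filter (fun w => w ∈ H)).card ≤ H.card := by
        apply Finset.card_le_card
        intro w hw
        exact (Finset.mem_filter.mp hw).2
      have hk : k0 s0 R0 = ram R0 s0 + ram (sN s0 R0) s0 := rfl
      obtain ⟨W, hW, hWc, hWq⟩ := h.clique_in x
        ((D.filter (fun w => G.Adj z w)).filter (fun w => ¬ w ∈ H))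
        (fun w hw => (hDmem w (Finset.mem_filter.mp (Finset.mem_filter.mp hw).1).1).1)
        (sN s0 R0) (by omega)
      refine ⟨W, fun _ => ⟨?_, ?_, ?_, hWc, hWq⟩⟩
      · intro w hw
        exact (Finset.mem_filter.mp (Finset.mem_filter.mp (hW hw)).1).1
      · intro w hw
        exact (Finset.mem_filter.mp (Finset.mem_filter.mp (hW hw)).1).2
      · intro w hw
        exact (Finset.mem_filter.mp (hW hw)).2
    · exact ⟨∅, fun h => absurd h hz⟩
  choose W hW using hex
  obtain ⟨L, hL1, hL2, hL3⟩ := sel1 (G := G) (R0 := R0) C (sN s0 R0) W s0 B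
    (Finset.filter_subset _ _) (fun z hz => (hW z hz).2.2.2.1.le)
    (by
      intro z hz w hw
      obtain ⟨h1, h2, h3, h4, h5⟩ := hW z hz
      have hwD := h1 hw
      have hwC := hDC w hwD
      have hnH := h3 w hw
      rcases h.dich' w C hC hwC with h6 | h6
      · exact h6
      · exfalso
        exact hnH (Finset.mem_filter.mpr ⟨hwD, h6⟩))
    hcon
  obtain ⟨I, hI1, hI2, hI3⟩ := h.sel2 s0 (L.map (fun z => (z, W z))) (by simpa using hL1)
    (by
      intro p hp
      rw [List.mem_map] at hp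
      obtain ⟨z, hz, rfl⟩ := hp
      obtain ⟨h1, h2, h3, h4, h5⟩ := hW z (hL2 z hz)
      refine ⟨h5, h2, ?_⟩
      simp only [h4, sN]
      exact le_refl _)
    (by
      rw [List.pairwise_map]
      refine hL3.imp_of_mem ?_
      intro z z' hz hz' hzz
      obtain ⟨h1, h2, h3, h4, h5⟩ := hW z (hL2 z hz)
      refine ⟨fun hmem => ?_, hzz⟩
      exact hDC _ (h1 hmem) (Finset.mem_filter.mp (hL2 z' hz')).1)
  have hfin := h.star x I hI2 (by
    intro w hw
    obtain ⟨p, hp, hwp⟩ := hI3 w hw
    rw [List.mem_map] at hp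
    obtain ⟨z, hz, rfl⟩ := hp
    exact (hDmem w ((hW z (hL2 z hz)).1 hwp)).1)
  omega

/-- in terms of codegrees -/
lemma cd_le (x y z : V) (hx : G.Adj z x) (hy : G.Adj z y) (hxy : G.Adj x y) :
    cd G x z ≤ cd G y z + ((prv G x y).filter (fun w => G.Adj z w)).card := by
  have h1 : G.neighborFinset x ∩ G.neighborFinset z ⊆
      ((prv G x y).filter (fun w => G.Adj z w)) ∪
        (insert y (((G.neighborFinset y ∩ G.neighborFinset z)).erase x)) := by
    intro w hw
    simp only [Finset.mem_inter, SimpleGraph.mem_neighborFinset] at hw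
    simp only [Finset.mem_union, Finset.mem_filter, prv, SimpleGraph.mem_neighborFinset,
      Finset.mem_insert, Finset.mem_erase, Finset.mem_inter]
    by_cases h1 : w = y
    · right; left; exact h1
    · by_cases h2 : G.Adj y w
      · right; right; exact ⟨hw.1.ne', h2, hw.2⟩
      · left; exact ⟨⟨hw.1, h1, h2⟩, hw.2⟩
  have h2 := Finset.card_le_card h1
  have h3 := (Finset.card_union_le ((prv G x y).filter (fun w => G.Adj z w))
    (insert y (((G.neighborFinset y ∩ G.neighborFinset z)).erase x)))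
  have h4 := Finset.card_insert_le y (((G.neighborFinset y ∩ G.neighborFinset z)).erase x)
  have hxmem : x ∈ G.neighborFinset y ∩ G.neighborFinset z := by
    simp only [Finset.mem_inter, SimpleGraph.mem_neighborFinset]
    exact ⟨hxy.symm, hx⟩
  have h5 := Finset.card_erase_of_mem hxmem
  have h6 : 0 < (G.neighborFinset y ∩ G.neighborFinset z).card := Finset.card_pos.mpr ⟨x, hxmem⟩
  unfold cd
  omega

end TE
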