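import Mathlib
import Pool.Agent.Helper85.TE.Alg
import Pool.Agent.Helper85.TE.Star

set_option autoImplicit false
set_option linter.unusedSectionVars false
set_option linter.unusedSimpArgs false

namespace TE

open Finset

variable {V : Type*} [Fintype V] [DecidableEq V]
variable {G : SimpleGraph V} [DecidableRel G.Adj] {T θ0 θ1 θ2 : ℝ} {α : V → ℝ}

lemma Dat.cnd (h : Dat G T θ0 θ1 θ2 α) (s0 R0 : ℕ) (hs : T ^ 2 < s0) (hR : 2 * T ^ 2 < R0) :
    Cnd G s0 R0 where
  star := by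
    intro x I hI hx
    have h1 := star_bound h.T1 h.psd x I hI hx
    have h2 : (I.card : ℝ) < s0 := lt_of_le_of_lt h1 hs
    exact_mod_cast h2
  dich := by
    intro x J L h1 h2 h3 h4 h5 h6 h7
    exact dich_aux h.T1 h.psd R0 hR x J L h1 h2 h3 h4 h5 h6 h7
  R1 := by
    have h1 : (0 : ℝ) < R0 := by nlinarith [sq_nonneg T]
    exact_mod_cast h1
  s1 := by
    have h1 : (0 : ℝ) < s0 := by nlinarith [sq_nonneg T]
    exact_mod_cast h1

lemma Dat.typ (h : Dat G T θ0 θ1 θ2 α) {s0 R0 : ℕ} (hc : Cnd G s0 R0) (C : Finset V)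
    (hC : Clq G C) (hcard : R0 * R0 + R0 ≤ C.card) (x y : V) (hx : x ∈ C) (hy : y ∈ C) :
    ∃ B : Finset V, B.card ≤ 2 * b1 s0 R0 + 2 ∧ ∀ z ∈ C, z ∉ B →
      ∃ j : ℤ, α z * (α x - α y) = j ∧ |j| ≤ (k0 s0 R0 : ℤ) := by
  by_cases hxy : x = y
  · refine ⟨∅, by simp, fun z _ _ => ⟨0, by rw [hxy]; simp, by simp⟩⟩
  set B1 := C.filter (fun z => k0 s0 R0 ≤ ((prv G x y).filter (fun w => G.Adj z w)).card)
  set B2 := C.filter (fun z => k0 s0 R0 ≤ ((prv G y x).filter (fun w => G.Adj z w)).card)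
  have hB1 : B1.card < b1 s0 R0 := hc.star_main C hC hcard x y hy
  have hB2 : B2.card < b1 s0 R0 := hc.star_main C hC hcard y x hx
  refine ⟨(B1 ∪ B2) ∪ {x, y}, ?_, ?_⟩
  · have e1 := Finset.card_union_le (B1 ∪ B2) {x, y}
    have e2 := Finset.card_union_le B1 B2
    have e3 : ({x, y} : Finset V).card ≤ 2 := Finset.card_le_two
    omega
  · intro z hz hzB
    simp only [Finset.mem_union, Finset.mem_insert, Finset.mem_singleton, not_or] at hzB
    obtain ⟨⟨hz1, hz2⟩, hzx, hzy⟩ := hzB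
    have azx : G.Adj z x := hC z hz x hx hzx
    have azy : G.Adj z y := hC z hz y hy hzy
    have axy : G.Adj x y := hC x hx y hy hxy
    have h1 := cd_le (G := G) x y z azx azy axy
    have h2 := cd_le (G := G) y x z azy azx axy.symm
    have h3 : ((prv G x y).filter (fun w => G.Adj z w)).card < k0 s0 R0 := by
      by_contra hcon
      exact hz1 (Finset.mem_filter.mpr ⟨hz, not_lt.mp hcon⟩)
    have h4 : ((prv G y x).filter (fun w => G.Adj z w)).card < k0 s0 R0 := by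
      by_contra hcon
      exact hz2 (Finset.mem_filter.mpr ⟨hz, not_lt.mp hcon⟩)
    refine ⟨(cd G x z : ℤ) - cd G y z, ?_, ?_⟩
    · push_cast
      rw [h.adj x z azx.symm, h.adj y z azy.symm]
      ring
    · rw [abs_le]
      constructor <;> omega

lemma abs_int_ge {j : ℤ} (hj : (j : ℝ) ≠ 0) : (1 : ℝ) ≤ |(j : ℝ)| := by
  have h1 : j ≠ 0 := by intro h; apply hj; rw [h]; simp
  have h2 : (1 : ℤ) ≤ |j| := Int.one_le_abs h1
  exact_mod_cast h2

lemma Dat.bound_clique (h : Dat G T θ0 θ1 θ2 α) (hreg : ¬ ∃ d, G.IsRegularOfDegree d)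
    {s0 R0 : ℕ} (hc : Cnd G s0 R0) (C : Finset V)
    (hC : Clq G C) (hcard : R0 * R0 + R0 + 4 * b1 s0 R0 + 10 ≤ C.card) (x y : V) (hx : x ∈ C)
    (hy : y ∈ C) (hne : α x ≠ α y) (v : V) (hv : v ∈ C) :
    α v ≤ ((k0 s0 R0 : ℝ) + 1) ^ 2 + ((k0 s0 R0 : ℝ) + 1) := by
  set κ : ℝ := (k0 s0 R0 : ℝ) + 1 with hκ
  have hκ1 : 1 ≤ κ := by
    have : (0 : ℝ) ≤ (k0 s0 R0 : ℝ) := Nat.cast_nonneg _
    linarith
  have hcard' : R0 * R0 + R0 ≤ C.card := by omega
  have hpick : ∀ B : Finset V, B.card ≤ 4 * b1 s0 R0 + 4 → ∃ w ∈ C, w ∉ B := by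
    intro B hB
    by_contra hcon
    push Not at hcon
    have := Finset.card_le_card (show C ⊆ B from hcon)
    omega
  have hint : ∀ j : ℤ, |j| ≤ (k0 s0 R0 : ℤ) → |(j : ℝ)| ≤ κ := by
    intro j hj
    have h1 : ((|j| : ℤ) : ℝ) ≤ ((k0 s0 R0 : ℤ) : ℝ) := by exact_mod_cast hj
    push_cast at h1
    linarith
  obtain ⟨B1, hB1, hB1'⟩ := h.typ hc C hC hcard' x y hx hy
  have hD : 0 < |α x - α y| := abs_pos.mpr (sub_ne_zero.mpr hne)
  have hge1 := fun x => h.one_le hreg x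
  -- there is a typical vertex with small weight
  have hz : ∃ z ∈ C, α z ≤ κ ^ 2 := by
    by_cases hcase : ∃ z ∈ C, z ∉ B1 ∧ ∃ z' ∈ C, z' ∉ B1 ∧ α z ≠ α z'
    · obtain ⟨z, hz, hzB, z', hz', hz'B, hzz⟩ := hcase
      refine ⟨z, hz, ?_⟩
      obtain ⟨B2, hB2, hB2'⟩ := h.typ hc C hC hcard' z z' hz hz'
      obtain ⟨w, hw, hwB⟩ := hpick (B1 ∪ B2) (by
        have := Finset.card_union_le B1 B2
        omega)
      rw [Finset.mem_union, not_or] at hwB
      obtain ⟨j1, hj1, hj1'⟩ := hB1' z hz hzB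
      obtain ⟨j2, hj2, hj2'⟩ := hB1' z' hz' hz'B
      obtain ⟨j3, hj3, hj3'⟩ := hB1' w hw hwB.1
      obtain ⟨j4, hj4, hj4'⟩ := hB2' w hw hwB.2
      set D := |α x - α y| with hDdef
      set E := |α z - α z'| with hEdef
      have hE : 0 < E := abs_pos.mpr (sub_ne_zero.mpr hzz)
      have e1 : α z * D ≤ κ := by
        rw [hDdef, ← abs_of_pos (h.pos z), ← abs_mul, hj1]
        exact hint _ hj1'
      have e2 : α w * E ≤ κ := by
        rw [hEdef, ← abs_of_pos (h.pos w), ← abs_mul, hj4]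
        exact hint _ hj4'
      have e3 : 1 ≤ E * D := by
        rw [hEdef, hDdef, ← abs_mul]
        have : (α z - α z') * (α x - α y) = ((j1 - j2 : ℤ) : ℝ) := by
          push_cast; rw [← hj1, ← hj2]; ring
        rw [this]
        apply abs_int_ge
        rw [← this]
        exact mul_ne_zero (sub_ne_zero.mpr hzz) (sub_ne_zero.mpr hne)
      have e4 : 1 ≤ α w * D := by
        rw [hDdef, ← abs_of_pos (h.pos w), ← abs_mul, hj3]
        apply abs_int_ge
        rw [← hj3]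
        exact mul_ne_zero (h.pos w).ne' (sub_ne_zero.mpr hne)
      have hw0 := h.pos w
      have hz0 := h.pos z
      have e5 : α w ≤ κ * D := by
        calc α w = α w * 1 := by ring
          _ ≤ α w * (E * D) := mul_le_mul_of_nonneg_left e3 hw0.le
          _ = (α w * E) * D := by ring
          _ ≤ κ * D := mul_le_mul_of_nonneg_right e2 hD.le
      have e6 : 1 ≤ κ * D ^ 2 := by
        calc (1 : ℝ) ≤ α w * D := e4
          _ ≤ (κ * D) * D := mul_le_mul_of_nonneg_right e5 hD.le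
          _ = κ * D ^ 2 := by ring
      have e7 : α z ^ 2 ≤ κ ^ 3 := by
        calc α z ^ 2 = α z ^ 2 * 1 := by ring
          _ ≤ α z ^ 2 * (κ * D ^ 2) := mul_le_mul_of_nonneg_left e6 (sq_nonneg _)
          _ = κ * (α z * D) ^ 2 := by ring
          _ ≤ κ * κ ^ 2 := by
            apply mul_le_mul_of_nonneg_left _ (by linarith)
            exact pow_le_pow_left₀ (mul_nonneg hz0.le hD.le) e1 2
          _ = κ ^ 3 := by ring
      have e8 : α z ^ 2 ≤ (κ ^ 2) ^ 2 := by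
        calc α z ^ 2 ≤ κ ^ 3 := e7
          _ = κ ^ 3 * 1 := by ring
          _ ≤ κ ^ 3 * κ := mul_le_mul_of_nonneg_left hκ1 (by positivity)
          _ = (κ ^ 2) ^ 2 := by ring
      exact le_of_sq_le_sq e8 (by positivity)
    · push Not at hcase
      obtain ⟨z, hz, hzB⟩ := hpick B1 (by omega)
      refine ⟨z, hz, ?_⟩
      have hu : ∃ u ∈ C, α u ≠ α z := by
        by_cases hxz : α x = α z
        · exact ⟨y, hy, fun h' => hne (hxz.trans h'.symm)⟩
        · exact ⟨x, hx, hxz⟩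
      obtain ⟨u, hu, huz⟩ := hu
      obtain ⟨B2, hB2, hB2'⟩ := h.typ hc C hC hcard' u z hu hz
      obtain ⟨w, hw, hwB⟩ := hpick (B1 ∪ B2) (by
        have := Finset.card_union_le B1 B2
        omega)
      rw [Finset.mem_union, not_or] at hwB
      have hwz : α w = α z := hcase w hw hwB.1 z hz hzB
      obtain ⟨i, hi, hi'⟩ := hB2' w hw hwB.2
      rw [hwz] at hi
      obtain ⟨m1, hm1⟩ := h.int_sq hreg u
      obtain ⟨m2, hm2⟩ := h.int_sq hreg z
      have e1 : (α u - α z) ^ 2 = ((m1 - 2 * i - m2 : ℤ) : ℝ) := by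
        push_cast
        rw [← hm1, ← hi, ← hm2]; ring
      have e2 : (0 : ℝ) < (α u - α z) ^ 2 := by
        have := sub_ne_zero.mpr huz
        positivity
      have e3 : (1 : ℝ) ≤ (α u - α z) ^ 2 := by
        rw [e1] at e2 ⊢
        have h1 : 0 < m1 - 2 * i - m2 := by exact_mod_cast e2
        have h2 : 1 ≤ m1 - 2 * i - m2 := h1
        exact_mod_cast h2
      have e4 : α z ^ 2 ≤ κ ^ 2 := by
        calc α z ^ 2 = α z ^ 2 * 1 := by ring
          _ ≤ α z ^ 2 * (α u - α z) ^ 2 := mul_le_mul_of_nonneg_left e3 (sq_nonneg _)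
          _ = (i : ℝ) ^ 2 := by rw [← hi]; ring
          _ = |(i : ℝ)| ^ 2 := (sq_abs _).symm
          _ ≤ κ ^ 2 := pow_le_pow_left₀ (abs_nonneg _) (hint _ hi') 2
      have e5 : α z ≤ κ := le_of_sq_le_sq e4 (by linarith)
      nlinarith
  obtain ⟨z, hz, hzκ⟩ := hz
  obtain ⟨B3, hB3, hB3'⟩ := h.typ hc C hC hcard' v z hv hz
  obtain ⟨w, hw, hwB⟩ := hpick B3 (by omega)
  obtain ⟨j, hj, hj'⟩ := hB3' w hw hwB
  have e1 : |α v - α z| ≤ κ := by
    have h1 : α w * |α v - α z| ≤ κ := by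
      rw [← abs_of_pos (h.pos w), ← abs_mul, hj]
      exact hint _ hj'
    have h2 : 1 * |α v - α z| ≤ α w * |α v - α z| :=
      mul_le_mul_of_nonneg_right (hge1 w) (abs_nonneg _)
    linarith
  have e2 := le_abs_self (α v - α z)
  linarith

/-- the threshold for cliques -/
def SS (s0 R0 : ℕ) : ℕ := R0 * R0 + R0 + 4 * b1 s0 R0 + 10

/-- the bound for the Perron weights -/
noncomputable def KK (T : ℝ) : ℝ :=
  ((k0 (⌊T ^ 2⌋₊ + 1) (⌊2 * T ^ 2⌋₊ + 1) : ℝ) + 1) ^ 2
    + ((k0 (⌊T ^ 2⌋₊ + 1) (⌊2 * T ^ 2⌋₊ + 1) : ℝ) + 1)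
    + (ram (SS (⌊T ^ 2⌋₊ + 1) (⌊2 * T ^ 2⌋₊ + 1)) (⌊T ^ 2⌋₊ + 1) : ℝ) + 2 * T + 1

theorem Dat.bdd (h : Dat G T θ0 θ1 θ2 α) (hreg : ¬ ∃ d, G.IsRegularOfDegree d) (x : V) :
    α x ≤ KK T := by
  set s0 := ⌊T ^ 2⌋₊ + 1 with hs0
  set R0 := ⌊2 * T ^ 2⌋₊ + 1 with hR0
  have hc : Cnd G s0 R0 := by
    refine h.cnd s0 R0 ?_ ?_
    · rw [hs0]; push_cast; exact Nat.lt_floor_add_one _
    · rw [hR0]; push_cast; exact Nat.lt_floor_add_one _
  have hKK : KK T = ((k0 s0 R0 : ℝ) + 1) ^ 2 + ((k0 s0 R0 : ℝ) + 1)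
    + (ram (SS s0 R0) s0 : ℝ) + 2 * T + 1 := rfl
  by_contra hcon
  push Not at hcon
  rw [hKK] at hcon
  apply hreg
  have hT := h.T1
  have key : ∀ u v, G.Adj u v → α u = α x → α v = α x := by
    intro u v huv hu
    by_contra hne
    have h1 := h.adj u v huv
    have h2 : α u ≤ α u * α v := by
      nlinarith [h.one_le hreg v, h.pos u]
    have h3 : (ram (SS s0 R0) s0 : ℝ) ≤ cd G u v := by
      rw [h1]
      have := h.h12
      have := h.hT
      have : (0 : ℝ) ≤ (k0 s0 R0 : ℝ) := Nat.cast_nonneg _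
      nlinarith
    have h4 : ram (SS s0 R0) s0 ≤ cd G u v := by exact_mod_cast h3
    obtain ⟨Q, hQ, hQc, hQq⟩ := hc.clique_in u (G.neighborFinset u ∩ G.neighborFinset v)
      (fun w hw => by
        rw [Finset.mem_inter, SimpleGraph.mem_neighborFinset] at hw
        exact hw.1) _ h4
    have hQm : ∀ w ∈ Q, G.Adj u w ∧ G.Adj v w := by
      intro w hw
      have := hQ hw
      rw [Finset.mem_inter, SimpleGraph.mem_neighborFinset,
        SimpleGraph.mem_neighborFinset] at this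
      exact this
    have hC : Clq G (insert u (insert v Q)) := by
      intro a ha b hb hab
      rcases Finset.mem_insert.mp ha with ha1 | ha1
      · rcases Finset.mem_insert.mp hb with hb1 | hb1
        · exact absurd (ha1.trans hb1.symm) hab
        · rcases Finset.mem_insert.mp hb1 with hb2 | hb2
          · rw [ha1, hb2]; exact huv
          · rw [ha1]; exact (hQm b hb2).1
      · rcases Finset.mem_insert.mp ha1 with ha2 | ha2
        · rcases Finset.mem_insert.mp hb with hb1 | hb1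
          · rw [ha2, hb1]; exact huv.symm
          · rcases Finset.mem_insert.mp hb1 with hb2 | hb2
            · exact absurd (ha2.trans hb2.symm) hab
            · rw [ha2]; exact (hQm b hb2).2
        · rcases Finset.mem_insert.mp hb with hb1 | hb1
          · rw [hb1]; exact (hQm a ha2).1.symm
          · rcases Finset.mem_insert.mp hb1 with hb2 | hb2
            · rw [hb2]; exact (hQm a ha2).2.symm
            · exact hQq a ha2 b hb2 hab
    have hCc : R0 * R0 + R0 + 4 * b1 s0 R0 + 10 ≤ (insert u (insert v Q)).card := by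
      have e1 : Q.card ≤ (insert u (insert v Q)).card := by
        apply Finset.card_le_card
        intro w hw
        exact Finset.mem_insert_of_mem (Finset.mem_insert_of_mem hw)
      rw [hQc] at e1
      exact e1
    have h5 := h.bound_clique hreg hc _ hC hCc u v (by simp) (by simp)
      (fun h' => hne (h'.symm.trans hu)) u (by simp)
    have h6 : (0 : ℝ) ≤ (ram (SS s0 R0) s0 : ℝ) := Nat.cast_nonneg _
    rw [hu] at h5
    linarith
  apply h.reg_of_const
  have hall : ∀ v, α v = α x := fun v => conn_prop h.conn (fun z => α z = α x) key x v rfl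
  intro u v _
  rw [hall u, hall v]

end TE
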