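import Mathlib
import Pool.Agent.Helper85.TE.Comb

set_option autoImplicit false
set_option linter.unusedSectionVars false
set_option linter.unusedSimpArgs false

namespace TE

open Finset

variable {V : Type*} [Fintype V] [DecidableEq V]
variable {G : SimpleGraph V} [DecidableRel G.Adj] {T t m θ : ℝ}

/-- degrees and codegrees when the second largest eigenvalue `θ` is large -/
structure Lg (G : SimpleGraph V) [DecidableRel G.Adj] (T t m θ : ℝ) : Prop where
  T1 : 1 ≤ T
  t0 : 0 < t
  tT : t ≤ T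
  m1 : 1 ≤ m
  adjL : ∀ x y, G.Adj x y → θ + 1 - t ≤ cd G x y
  adjU : ∀ x y, G.Adj x y → (cd G x y : ℝ) ≤ θ + m
  nadj : ∀ x y, x ≠ y → ¬ G.Adj x y → (cd G x y : ℝ) ≤ m
  degL : ∀ x, t * θ ≤ G.degree x
  degU : ∀ x, (G.degree x : ℝ) ≤ t * θ + m
  star : ∀ (x : V) (I : Finset V), Idp G I → (∀ y ∈ I, G.Adj x y) → (I.card : ℝ) ≤ T ^ 2
  q1 : 4 * (T ^ 2 * (m + 1)) < θ
  q2 : 4 * (m + T ^ 2 * (T + T ^ 2 * m)) < θ
  q3 : 2 * (T + T ^ 2 * m) + 2 * m + 2 < θ
  q4 : m < θ
  q5 : 4 * (m + 2 * (T + 1) * ((T + T ^ 2 * m) + 1)) < θ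
  q6 : 4 * (2 * (T + 1) * (m + 1)) < θ
  q7 : (T + T ^ 2 * m) + T + 4 < θ

lemma mem_N (x y : V) : y ∈ G.neighborFinset x ↔ G.Adj x y := SimpleGraph.mem_neighborFinset _ _ _

/-- maximal independent subsets of a neighbourhood -/
def Mx (G : SimpleGraph V) (x : V) (Y : Finset V) : Prop :=
  Idp G Y ∧ (∀ y ∈ Y, G.Adj x y) ∧ ∀ z, G.Adj x z → z ∈ Y ∨ ∃ y ∈ Y, G.Adj y z

lemma exists_Mx (x : V) (I : Finset V) (hI : Idp G I) (hx : ∀ y ∈ I, G.Adj x y) :
    ∃ Y, I ⊆ Y ∧ Mx G x Y := by
  classical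
  have hne : ((Finset.univ : Finset (Finset V)).filter
      (fun Y => I ⊆ Y ∧ Idp G Y ∧ ∀ y ∈ Y, G.Adj x y)).Nonempty :=
    ⟨I, by simp only [Finset.mem_filter, Finset.mem_univ, true_and]
           exact ⟨subset_refl _, hI, hx⟩⟩
  obtain ⟨Y, hY, hmax⟩ := Finset.exists_max_image _ (fun Y => Y.card) hne
  simp only [Finset.mem_filter, Finset.mem_univ, true_and] at hY hmax
  refine ⟨Y, hY.1, hY.2.1, hY.2.2, ?_⟩
  intro z hz
  by_contra hcon
  push Not at hcon
  obtain ⟨hzY, hzn⟩ := hcon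
  have := hmax (insert z Y) ⟨hY.1.trans (Finset.subset_insert _ _), ?_, ?_⟩
  · rw [Finset.card_insert_of_notMem hzY] at this
    omega
  · intro u hu v hv huv
    rcases Finset.mem_insert.mp hu with h1 | h1 <;> rcases Finset.mem_insert.mp hv with h2 | h2
    · rw [h1, h2] at huv; exact G.irrefl huv
    · rw [h1] at huv; exact hzn v h2 huv.symm
    · rw [h2] at huv; exact hzn u h1 huv
    · exact hY.2.1 u h1 v h2 huv
  · intro y hy
    rcases Finset.mem_insert.mp hy with h1 | h1
    · rw [h1]; exact hz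
    · exact hY.2.2 y h1

/-- private part of the neighbourhood -/
def UU (G : SimpleGraph V) [DecidableRel G.Adj] (x y : V) (Y : Finset V) : Finset V :=
  (G.neighborFinset x ∩ G.neighborFinset y).filter (fun z => ∀ y' ∈ Y.erase y, ¬ G.Adj y' z)

lemma Lg.UU_card (h : Lg G T t m θ) (x y : V) (Y : Finset V) (hY : Idp G Y)
    (hYx : ∀ y ∈ Y, G.Adj x y) (hy : y ∈ Y) :
    θ + 1 - t - Y.card * m ≤ (UU G x y Y).card := by
  have h1 : (UU G x y Y).card + ((G.neighborFinset x ∩ G.neighborFinset y).filter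
      (fun z => ¬ ∀ y' ∈ Y.erase y, ¬ G.Adj y' z)).card = cd G x y :=
    Finset.card_filter_add_card_filter_not _
  have h2 : (((G.neighborFinset x ∩ G.neighborFinset y).filter
      (fun z => ¬ ∀ y' ∈ Y.erase y, ¬ G.Adj y' z)).card : ℝ) ≤ Y.card * m := by
    have hsub : (G.neighborFinset x ∩ G.neighborFinset y).filter
      (fun z => ¬ ∀ y' ∈ Y.erase y, ¬ G.Adj y' z) ⊆
      (Y.erase y).biUnion (fun y' => G.neighborFinset y ∩ G.neighborFinset y') := by
      intro z hz
      rw [Finset.mem_filter, Finset.mem_inter, mem_N, mem_N] at hz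
      obtain ⟨⟨hz1, hz2⟩, hz3⟩ := hz
      push Not at hz3
      obtain ⟨y', hy', hy'z⟩ := hz3
      rw [Finset.mem_biUnion]
      exact ⟨y', hy', by rw [Finset.mem_inter, mem_N, mem_N]; exact ⟨hz2, hy'z⟩⟩
    have h3 : ((Y.erase y).biUnion
        (fun y' => G.neighborFinset y ∩ G.neighborFinset y')).card ≤ ∑ y' ∈ Y.erase y, cd G y y' :=
      Finset.card_biUnion_le
    have h4 := (Finset.card_le_card hsub).trans h3
    have h5 : ((∑ y' ∈ Y.erase y, cd G y y' : ℕ) : ℝ) ≤ ∑ y' ∈ Y.erase y, m := by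
      push_cast
      refine Finset.sum_le_sum fun y' hy' => ?_
      rw [Finset.mem_erase] at hy'
      exact h.nadj y y' (Ne.symm hy'.1) (hY y hy y' hy'.2)
    have h6 : ∑ y' ∈ Y.erase y, m ≤ Y.card * m := by
      rw [Finset.sum_const, nsmul_eq_mul]
      refine mul_le_mul_of_nonneg_right ?_ (by have := h.m1; linarith)
      exact_mod_cast Finset.card_le_card (Finset.erase_subset _ _)
    calc _ ≤ ((∑ y' ∈ Y.erase y, cd G y y' : ℕ) : ℝ) := by exact_mod_cast h4
      _ ≤ _ := h5
      _ ≤ _ := h6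
  have h3 := h.adjL x y (hYx y hy)
  have h4 : ((UU G x y Y).card : ℝ) + (((G.neighborFinset x ∩ G.neighborFinset y).filter
      (fun z => ¬ ∀ y' ∈ Y.erase y, ¬ G.Adj y' z)).card : ℝ) = cd G x y := by exact_mod_cast h1
  linarith

lemma Lg.Mx_card (h : Lg G T t m θ) (x : V) (Y : Finset V) (hY : Mx G x Y) :
    |(Y.card : ℝ) - t| < 1 / 4 := by
  obtain ⟨hY1, hY2, hY3⟩ := hY
  have hs := h.star x Y hY1 hY2
  have hs0 : (0 : ℝ) ≤ Y.card := Nat.cast_nonneg _
  have hm := h.m1
  have hT := h.T1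
  have ht := h.tT
  have ht0 := h.t0
  have hθ : 0 < θ := by linarith [h.q4]
  -- upper bound for the degree
  have hup : (G.degree x : ℝ) ≤ Y.card * (θ + m + 1) := by
    have hsub : G.neighborFinset x ⊆ Y.biUnion
        (fun y => insert y (G.neighborFinset x ∩ G.neighborFinset y)) := by
      intro z hz
      rw [mem_N] at hz
      rw [Finset.mem_biUnion]
      rcases hY3 z hz with h1 | ⟨y, hy, hyz⟩
      · exact ⟨z, h1, Finset.mem_insert_self _ _⟩
      · exact ⟨y, hy, Finset.mem_insert_of_mem (by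
          rw [Finset.mem_inter, mem_N, mem_N]; exact ⟨hz, hyz⟩)⟩
    have h1 : G.degree x ≤ ∑ y ∈ Y, (cd G x y + 1) := by
      rw [← SimpleGraph.card_neighborFinset_eq_degree]
      calc _ ≤ _ := Finset.card_le_card hsub
        _ ≤ ∑ y ∈ Y, (insert y (G.neighborFinset x ∩ G.neighborFinset y)).card :=
            Finset.card_biUnion_le
        _ ≤ _ := Finset.sum_le_sum fun y _ => Finset.card_insert_le _ _
    have h2 : ((∑ y ∈ Y, (cd G x y + 1) : ℕ) : ℝ) ≤ ∑ y ∈ Y, (θ + m + 1) := by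
      push_cast
      refine Finset.sum_le_sum fun y hy => ?_
      have := h.adjU x y (hY2 y hy)
      linarith
    rw [Finset.sum_const, nsmul_eq_mul] at h2
    calc (G.degree x : ℝ) ≤ _ := by exact_mod_cast h1
      _ ≤ _ := h2
  have hlow : (Y.card : ℝ) * (θ + 1 - t - Y.card * m) ≤ G.degree x := by
    have hdisj : (Y : Set V).PairwiseDisjoint (fun y => UU G x y Y) := by
      intro y hy y' hy' hne
      rw [Function.onFun, Finset.disjoint_left]
      intro z hz hz'
      rw [UU, Finset.mem_filter, Finset.mem_inter, mem_N, mem_N] at hz hz'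
      exact hz.2 y' (Finset.mem_erase.mpr ⟨Ne.symm hne, hy'⟩) hz'.1.2
    have h1 : ∑ y ∈ Y, (UU G x y Y).card ≤ G.degree x := by
      rw [← Finset.card_biUnion hdisj, ← SimpleGraph.card_neighborFinset_eq_degree]
      apply Finset.card_le_card
      intro z hz
      rw [Finset.mem_biUnion] at hz
      obtain ⟨y, hy, hz⟩ := hz
      rw [UU, Finset.mem_filter, Finset.mem_inter] at hz
      exact hz.1.1
    calc (Y.card : ℝ) * (θ + 1 - t - Y.card * m) = ∑ y ∈ Y, (θ + 1 - t - Y.card * m) := by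
          rw [Finset.sum_const, nsmul_eq_mul]
      _ ≤ ∑ y ∈ Y, ((UU G x y Y).card : ℝ) :=
          Finset.sum_le_sum fun y hy => h.UU_card x y Y hY1 hY2 hy
      _ ≤ _ := by exact_mod_cast h1
  have hd1 := h.degL x
  have hd2 := h.degU x
  rw [abs_lt]
  constructor
  · -- t - s < 1/4
    have h1 : (t - Y.card) * θ ≤ Y.card * (m + 1) := by nlinarith
    have h2 : (Y.card : ℝ) * (m + 1) ≤ T ^ 2 * (m + 1) :=
      mul_le_mul_of_nonneg_right hs (by linarith)
    have h3 := h.q1
    by_contra hcon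
    push Not at hcon
    have h4 : (1 / 4) * θ ≤ (t - Y.card) * θ := mul_le_mul_of_nonneg_right (by linarith) hθ.le
    linarith
  · have h1 : (Y.card - t) * θ ≤ m + Y.card * (t + Y.card * m) := by nlinarith
    have h2 : (Y.card : ℝ) * (t + Y.card * m) ≤ T ^ 2 * (T + T ^ 2 * m) := by
      apply mul_le_mul hs _ (by positivity) (by positivity)
      have : (Y.card : ℝ) * m ≤ T ^ 2 * m := mul_le_mul_of_nonneg_right hs (by linarith)
      linarith
    have h3 := h.q2
    by_contra hcon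
    push Not at hcon
    have h4 : (1 / 4) * θ ≤ (Y.card - t) * θ := mul_le_mul_of_nonneg_right (by linarith) hθ.le
    linarith

/-- every edge lies in a large clique -/
lemma Lg.big_clique (h : Lg G T t m θ) (x y : V) (hxy : G.Adj x y) :
    ∃ C : Finset V, Clq G C ∧ x ∈ C ∧ y ∈ C ∧ θ - (T + T ^ 2 * m) ≤ C.card := by
  obtain ⟨Y, hyY, hY⟩ := exists_Mx (G := G) x {y} (by
    intro u hu v hv huv
    rw [Finset.mem_singleton] at hu hv
    rw [hu, hv] at huv
    exact G.irrefl huv) (by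
    intro u hu
    rw [Finset.mem_singleton] at hu
    rw [hu]; exact hxy)
  have hy : y ∈ Y := hyY (Finset.mem_singleton_self y)
  have hU : Clq G (UU G x y Y) := by
    intro z hz z' hz' hne
    by_contra hnadj
    have hz0 := hz
    have hz0' := hz'
    rw [UU, Finset.mem_filter, Finset.mem_inter, mem_N, mem_N] at hz0 hz0'
    have hzY : z ∉ Y := fun hzY => hY.1 y hy z hzY hz0.1.2
    have hzY' : z' ∉ Y := fun hzY => hY.1 y hy z' hzY hz0'.1.2
    set Y' := insert z (insert z' (Y.erase y)) with hY'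
    have hc : Y'.card = Y.card + 1 := by
      rw [hY', Finset.card_insert_of_notMem, Finset.card_insert_of_notMem,
        Finset.card_erase_of_mem hy]
      · have : 0 < Y.card := Finset.card_pos.mpr ⟨y, hy⟩
        omega
      · intro h1; exact hzY' (Finset.mem_of_mem_erase h1)
      · intro h1
        rcases Finset.mem_insert.mp h1 with h1 | h1
        · exact hne h1
        · exact hzY (Finset.mem_of_mem_erase h1)
    obtain ⟨Y'', hsub, hY''⟩ := exists_Mx (G := G) x Y' (by
      have hidp : ∀ u ∈ Y', u = z ∨ u = z' ∨ u ∈ Y.erase y := by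
        intro u hu
        rcases Finset.mem_insert.mp hu with h1 | h1
        · exact Or.inl h1
        · rcases Finset.mem_insert.mp h1 with h1 | h1
          · exact Or.inr (Or.inl h1)
          · exact Or.inr (Or.inr h1)
      intro u hu v hv huv
      rcases hidp u hu with h1 | h1 | h1 <;> rcases hidp v hv with h2 | h2 | h2
      · rw [h1, h2] at huv; exact G.irrefl huv
      · rw [h1, h2] at huv; exact hnadj huv
      · rw [h1] at huv; exact hz0.2 v h2 huv.symm
      · rw [h1, h2] at huv; exact hnadj huv.symm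
      · rw [h1, h2] at huv; exact G.irrefl huv
      · rw [h1] at huv; exact hz0'.2 v h2 huv.symm
      · rw [h2] at huv; exact hz0.2 u h1 huv
      · rw [h2] at huv; exact hz0'.2 u h1 huv
      · exact hY.1 u (Finset.mem_of_mem_erase h1) v (Finset.mem_of_mem_erase h2) huv) (by
      intro u hu
      rcases Finset.mem_insert.mp hu with h1 | h1
      · rw [h1]; exact hz0.1.1
      · rcases Finset.mem_insert.mp h1 with h1 | h1
        · rw [h1]; exact hz0'.1.1
        · exact hY.2.1 u (Finset.mem_of_mem_erase h1))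
    have h1 := h.Mx_card x Y hY
    have h2 := h.Mx_card x Y'' hY''
    have h3 := Finset.card_le_card hsub
    rw [hc] at h3
    have h4 : (Y.card : ℝ) + 1 ≤ Y''.card := by exact_mod_cast h3
    rw [abs_lt] at h1 h2
    linarith
  refine ⟨insert x (insert y (UU G x y Y)), ?_, by simp, by simp, ?_⟩
  · have hUm : ∀ w ∈ UU G x y Y, G.Adj x w ∧ G.Adj y w := by
      intro w hw
      rw [UU, Finset.mem_filter, Finset.mem_inter, mem_N, mem_N] at hw
      exact hw.1
    intro a ha b hb hab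
    rcases Finset.mem_insert.mp ha with ha1 | ha1
    · rcases Finset.mem_insert.mp hb with hb1 | hb1
      · exact absurd (ha1.trans hb1.symm) hab
      · rcases Finset.mem_insert.mp hb1 with hb2 | hb2
        · rw [ha1, hb2]; exact hxy
        · rw [ha1]; exact (hUm b hb2).1
    · rcases Finset.mem_insert.mp ha1 with ha2 | ha2
      · rcases Finset.mem_insert.mp hb with hb1 | hb1
        · rw [ha2, hb1]; exact hxy.symm
        · rcases Finset.mem_insert.mp hb1 with hb2 | hb2
          · exact absurd (ha2.trans hb2.symm) hab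
          · rw [ha2]; exact (hUm b hb2).2
      · rcases Finset.mem_insert.mp hb with hb1 | hb1
        · rw [hb1]; exact (hUm a ha2).1.symm
        · rcases Finset.mem_insert.mp hb1 with hb2 | hb2
          · rw [hb2]; exact (hUm a ha2).2.symm
          · exact hU a ha2 b hb2 hab
  · have h1 := h.UU_card x y Y hY.1 hY.2.1 hy
    have h2 : (UU G x y Y).card ≤ (insert x (insert y (UU G x y Y))).card :=
      Finset.card_le_card fun w hw => Finset.mem_insert_of_mem (Finset.mem_insert_of_mem hw)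
    have h3 : ((UU G x y Y).card : ℝ) ≤ (insert x (insert y (UU G x y Y))).card := by
      exact_mod_cast h2
    have h4 := h.star x Y hY.1 hY.2.1
    have h5 : (Y.card : ℝ) * m ≤ T ^ 2 * m :=
      mul_le_mul_of_nonneg_right h4 (by have := h.m1; linarith)
    have h6 := h.tT
    linarith

lemma Clq.le_cd {C : Finset V} (hC : Clq G C) (x y : V) (hx : x ∈ C) (hy : y ∈ C) :
    C.card ≤ cd G x y + 2 := by
  have hsub : C ⊆ insert x (insert y (G.neighborFinset x ∩ G.neighborFinset y)) := by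
    intro w hw
    by_cases h1 : w = x
    · rw [h1]; simp
    by_cases h2 : w = y
    · rw [h2]; simp
    · refine Finset.mem_insert_of_mem (Finset.mem_insert_of_mem ?_)
      rw [Finset.mem_inter, mem_N, mem_N]
      exact ⟨hC x hx w hw (Ne.symm h1), hC y hy w hw (Ne.symm h2)⟩
  have h1 := Finset.card_le_card hsub
  have h2 := Finset.card_insert_le x (insert y (G.neighborFinset x ∩ G.neighborFinset y))
  have h3 := Finset.card_insert_le y (G.neighborFinset x ∩ G.neighborFinset y)
  unfold cd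
  omega

/-- two large cliques sharing an edge have a clique as union -/
lemma Lg.union_clq (h : Lg G T t m θ) (C1 C2 : Finset V) (h1 : Clq G C1) (h2 : Clq G C2)
    (hc1 : θ - (T + T ^ 2 * m) ≤ C1.card) (hc2 : θ - (T + T ^ 2 * m) ≤ C2.card) (x y : V)
    (hxy : x ≠ y) (hx1 : x ∈ C1) (hy1 : y ∈ C1) (hx2 : x ∈ C2) (hy2 : y ∈ C2) (u v : V)
    (hu : u ∈ C1) (hv : v ∈ C2) (huv : u ≠ v) : G.Adj u v := by
  by_contra hn
  have hadj : G.Adj x y := h1 x hx1 y hy1 hxy
  have e1 : C1 ∩ C2 ⊆ G.neighborFinset u ∩ G.neighborFinset v := by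
    intro w hw
    rw [Finset.mem_inter] at hw
    rw [Finset.mem_inter, mem_N, mem_N]
    constructor
    · refine h1 u hu w hw.1 ?_
      intro h'
      rw [← h'] at hw
      exact hn (h2 u hw.2 v hv huv)
    · refine h2 v hv w hw.2 ?_
      intro h'
      rw [← h'] at hw
      exact hn (h1 u hu v hw.1 huv)
  have e2 : ((C1 ∩ C2).card : ℝ) ≤ m := by
    have := Finset.card_le_card e1
    have h3 : ((C1 ∩ C2).card : ℝ) ≤ cd G u v := by exact_mod_cast this
    exact h3.trans (h.nadj u v huv hn)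
  have e3 : (C1 ∪ C2).card ≤ cd G x y + 2 := by
    have hsub : C1 ∪ C2 ⊆ insert x (insert y (G.neighborFinset x ∩ G.neighborFinset y)) := by
      intro w hw
      by_cases g1 : w = x
      · rw [g1]; simp
      by_cases g2 : w = y
      · rw [g2]; simp
      · refine Finset.mem_insert_of_mem (Finset.mem_insert_of_mem ?_)
        rw [Finset.mem_inter, mem_N, mem_N]
        rcases Finset.mem_union.mp hw with hw | hw
        · exact ⟨h1 x hx1 w hw (Ne.symm g1), h1 y hy1 w hw (Ne.symm g2)⟩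
        · exact ⟨h2 x hx2 w hw (Ne.symm g1), h2 y hy2 w hw (Ne.symm g2)⟩
    have g1 := Finset.card_le_card hsub
    have g2 := Finset.card_insert_le x (insert y (G.neighborFinset x ∩ G.neighborFinset y))
    have g3 := Finset.card_insert_le y (G.neighborFinset x ∩ G.neighborFinset y)
    unfold cd
    omega
  have e4 : ((C1 ∪ C2).card : ℝ) ≤ cd G x y + 2 := by exact_mod_cast e3
  have e5 := h.adjU x y hadj
  have e6 : ((C1 ∪ C2).card : ℝ) + (C1 ∩ C2).card = C1.card + C2.card := by
    exact_mod_cast Finset.card_union_add_card_inter C1 C2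
  have e7 := h.q3
  linarith

/-- maximal large cliques -/
def IsLine (G : SimpleGraph V) (T m θ : ℝ) (C : Finset V) : Prop :=
  Clq G C ∧ θ - (T + T ^ 2 * m) ≤ C.card ∧ ∀ z, z ∉ C → ∃ w ∈ C, ¬ G.Adj z w

open Classical in
/-- the set of all lines -/
noncomputable def lns (G : SimpleGraph V) (T m θ : ℝ) : Finset (Finset V) :=
  Finset.univ.filter (fun C => IsLine G T m θ C)

lemma mem_lns (C : Finset V) : C ∈ lns G T m θ ↔ IsLine G T m θ C := by
  classical
  unfold lns
  simp

lemma Lg.exists_line (h : Lg G T t m θ) (x y : V) (hxy : G.Adj x y) :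
    ∃ C ∈ lns G T m θ, x ∈ C ∧ y ∈ C := by
  classical
  obtain ⟨C0, hC0, hx0, hy0, hc0⟩ := h.big_clique x y hxy
  have hne : ((Finset.univ : Finset (Finset V)).filter (fun C => C0 ⊆ C ∧ Clq G C)).Nonempty :=
    ⟨C0, by simp only [Finset.mem_filter, Finset.mem_univ, true_and]
            exact ⟨subset_refl _, hC0⟩⟩
  obtain ⟨C, hC, hmax⟩ := Finset.exists_max_image _ (fun C => C.card) hne
  simp only [Finset.mem_filter, Finset.mem_univ, true_and] at hC hmax
  refine ⟨C, (mem_lns C).mpr ⟨hC.2, ?_, ?_⟩, hC.1 hx0, hC.1 hy0⟩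
  · have h1 : (C0.card : ℝ) ≤ C.card := by exact_mod_cast Finset.card_le_card hC.1
    linarith
  · intro z hz
    by_contra hcon
    push Not at hcon
    have := hmax (insert z C) ⟨hC.1.trans (Finset.subset_insert _ _), ?_⟩
    · rw [Finset.card_insert_of_notMem hz] at this
      omega
    · intro u hu v hv huv
      rcases Finset.mem_insert.mp hu with h1 | h1 <;> rcases Finset.mem_insert.mp hv with h2 | h2
      · exact absurd (h1.trans h2.symm) huv
      · rw [h1]; exact hcon v h2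
      · rw [h2]; exact (hcon u h1).symm
      · exact hC.2 u h1 v h2 huv

lemma Lg.line_unique (h : Lg G T t m θ) (C1 C2 : Finset V) (h1 : C1 ∈ lns G T m θ)
    (h2 : C2 ∈ lns G T m θ) (x y : V)
    (hxy : x ≠ y) (hx1 : x ∈ C1) (hy1 : y ∈ C1) (hx2 : x ∈ C2) (hy2 : y ∈ C2) : C1 = C2 := by
  rw [mem_lns] at h1 h2
  have key : ∀ A B : Finset V, IsLine G T m θ A → IsLine G T m θ B → x ∈ A → y ∈ A → x ∈ B →
      y ∈ B → A ⊆ B := by
    intro A B hA hB hxA hyA hxB hyB z hz
    by_contra hzB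
    obtain ⟨w, hw, hzw⟩ := hB.2.2 z hzB
    have hne : z ≠ w := by rintro rfl; exact hzB hw
    exact hzw (h.union_clq A B hA.1 hB.1 hA.2.1 hB.2.1 x y hxy hxA hyA hxB hyB z w hz hw hne)
  exact Finset.Subset.antisymm (key C1 C2 h1 h2 hx1 hy1 hx2 hy2)
    (key C2 C1 h2 h1 hx2 hy2 hx1 hy1)

/-- lines through a vertex -/
noncomputable def lnx (G : SimpleGraph V) (T m θ : ℝ) (x : V) : Finset (Finset V) :=
  (lns G T m θ).filter (fun C => x ∈ C)

lemma mem_lnx (x : V) (C : Finset V) : C ∈ lnx G T m θ x ↔ C ∈ lns G T m θ ∧ x ∈ C := by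
  unfold lnx; rw [Finset.mem_filter]

lemma Lg.partition (h : Lg G T t m θ) (x : V) (f : V → ℝ) :
    ∑ C ∈ lnx G T m θ x, ∑ y ∈ C.erase x, f y = ∑ y ∈ G.neighborFinset x, f y := by
  have hdisj : (lnx G T m θ x : Set (Finset V)).PairwiseDisjoint (fun C => C.erase x) := by
    intro C hC C' hC' hne
    rw [Finset.mem_coe, mem_lnx] at hC hC'
    rw [Function.onFun, Finset.disjoint_left]
    intro z hz hz'
    rw [Finset.mem_erase] at hz hz'
    exact hne (h.line_unique C C' hC.1 hC'.1 z x hz.1 hz.2 hC.2 hz'.2 hC'.2)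
  rw [← Finset.sum_biUnion hdisj]
  congr 1
  ext z
  rw [Finset.mem_biUnion, mem_N]
  constructor
  · rintro ⟨C, hC, hz⟩
    rw [mem_lnx, mem_lns] at hC
    rw [Finset.mem_erase] at hz
    exact hC.1.1 x hC.2 z hz.2 (Ne.symm hz.1)
  · intro hz
    obtain ⟨C, hC, hx, hzC⟩ := h.exists_line x z hz
    exact ⟨C, (mem_lnx x C).mpr ⟨hC, hx⟩, Finset.mem_erase.mpr ⟨hz.ne', hzC⟩⟩

lemma Lg.line_card (h : Lg G T t m θ) (C : Finset V) (hC : C ∈ lns G T m θ) :
    θ - (T + T ^ 2 * m) ≤ C.card ∧ (C.card : ℝ) ≤ θ + m + 2 := by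
  rw [mem_lns] at hC
  refine ⟨hC.2.1, ?_⟩
  have h1 : (4 : ℝ) < C.card := by
    have := h.q7; have := h.T1; linarith [hC.2.1]
  have h2 : 1 < C.card := by
    have : (4 : ℕ) < C.card := by exact_mod_cast h1
    omega
  obtain ⟨x, hx, y, hy, hxy⟩ := Finset.one_lt_card.mp h2
  have h3 := Clq.le_cd hC.1 x y hx hy
  have h4 := h.adjU x y (hC.1 x hx y hy hxy)
  have h5 : (C.card : ℝ) ≤ cd G x y + 2 := by exact_mod_cast h3
  linarith

lemma Lg.deg_eq (h : Lg G T t m θ) (x : V) :
    (G.degree x : ℝ) = ∑ C ∈ lnx G T m θ x, ((C.card : ℝ) - 1) := by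
  have h1 := h.partition x (fun _ => 1)
  have h2 : ∑ y ∈ G.neighborFinset x, (1 : ℝ) = G.degree x := by
    rw [Finset.sum_const, nsmul_eq_mul, mul_one, SimpleGraph.card_neighborFinset_eq_degree]
  rw [← h2, ← h1]
  refine Finset.sum_congr rfl fun C hC => ?_
  rw [mem_lnx] at hC
  rw [Finset.sum_const, nsmul_eq_mul, mul_one, Finset.card_erase_of_mem hC.2,
    Nat.cast_sub (Finset.card_pos.mpr ⟨x, hC.2⟩)]
  simp

lemma Lg.line_count (h : Lg G T t m θ) (x : V) : |((lnx G T m θ x).card : ℝ) - t| < 1 / 4 := by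
  set r : ℝ := ((lnx G T m θ x).card : ℝ) with hr
  have hr0 : 0 ≤ r := Nat.cast_nonneg _
  have hd := h.deg_eq x
  have hup : (G.degree x : ℝ) ≤ r * (θ + m + 1) := by
    rw [hd]
    calc _ ≤ ∑ C ∈ lnx G T m θ x, (θ + m + 1) := by
          refine Finset.sum_le_sum fun C hC => ?_
          have := (h.line_card C ((mem_lnx x C).mp hC).1).2
          linarith
      _ = _ := by rw [Finset.sum_const, nsmul_eq_mul]
  have hlow : r * (θ - (T + T ^ 2 * m) - 1) ≤ G.degree x := by
    rw [hd]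
    calc _ = ∑ C ∈ lnx G T m θ x, (θ - (T + T ^ 2 * m) - 1) := by
          rw [Finset.sum_const, nsmul_eq_mul]
      _ ≤ _ := by
          refine Finset.sum_le_sum fun C hC => ?_
          have := (h.line_card C ((mem_lnx x C).mp hC).1).1
          linarith
  have hd1 := h.degL x
  have hd2 := h.degU x
  have hm := h.m1
  have hT := h.T1
  have ht := h.tT
  have ht0 := h.t0
  have hθ : 0 < θ := by linarith [h.q4]
  set c0 := T + T ^ 2 * m with hc0
  have hc0pos : 0 < c0 := by positivity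
  have h3 := h.q3
  have h4 := h.q4
  have h5 := h.q5
  have h6 := h.q6
  rw [← hc0] at h3 h5
  -- bound on r
  have hrb : r ≤ 2 * (T + 1) := by
    have e1 : θ / 2 ≤ θ - c0 - 1 := by linarith
    have e2 : r * (θ / 2) ≤ (T + 1) * θ := by
      calc r * (θ / 2) ≤ r * (θ - c0 - 1) := mul_le_mul_of_nonneg_left e1 hr0
        _ ≤ t * θ + m := hlow.trans hd2
        _ ≤ T * θ + θ := by nlinarith
        _ = (T + 1) * θ := by ring
    by_contra hcon
    push Not at hcon
    have : (2 * (T + 1)) * (θ / 2) < r * (θ / 2) := mul_lt_mul_of_pos_right hcon (by linarith)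
    nlinarith
  rw [abs_lt]
  constructor
  · by_contra hcon
    push Not at hcon
    have e1 : (t - r) * θ ≤ r * (m + 1) := by nlinarith
    have e2 : r * (m + 1) ≤ 2 * (T + 1) * (m + 1) := mul_le_mul_of_nonneg_right hrb (by linarith)
    have e3 : (1 / 4) * θ ≤ (t - r) * θ := mul_le_mul_of_nonneg_right (by linarith) hθ.le
    linarith
  · by_contra hcon
    push Not at hcon
    have e1 : (r - t) * θ ≤ m + r * (c0 + 1) := by nlinarith
    have e2 : r * (c0 + 1) ≤ 2 * (T + 1) * (c0 + 1) := mul_le_mul_of_nonneg_right hrb (by linarith)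
    have e3 : (1 / 4) * θ ≤ (r - t) * θ := mul_le_mul_of_nonneg_right (by linarith) hθ.le
    linarith

/-- every vertex is on the same number of lines -/
lemma Lg.exists_ell (h : Lg G T t m θ) [Nonempty V] :
    ∃ ℓ : ℕ, |(ℓ : ℝ) - t| < 1 / 4 ∧ ∀ x, (lnx G T m θ x).card = ℓ := by
  obtain ⟨x0⟩ := ‹Nonempty V›
  refine ⟨(lnx G T m θ x0).card, h.line_count x0, fun x => ?_⟩
  have h1 := h.line_count x
  have h2 := h.line_count x0
  rw [abs_lt] at h1 h2
  have h3 : ((lnx G T m θ x).card : ℝ) < (lnx G T m θ x0).card + 1 := by linarith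
  have h4 : ((lnx G T m θ x0).card : ℝ) < (lnx G T m θ x).card + 1 := by linarith
  have h5 : (lnx G T m θ x).card < (lnx G T m θ x0).card + 1 := by exact_mod_cast h3
  have h6 : (lnx G T m θ x0).card < (lnx G T m θ x).card + 1 := by exact_mod_cast h4
  omega

lemma Lg.sum_lines (h : Lg G T t m θ) (ℓ : ℕ) (hℓ : ∀ x, (lnx G T m θ x).card = ℓ) (v : V → ℝ)
    (x : V) : ∑ y, ad G x y * v y + ℓ * v x = ∑ C ∈ lnx G T m θ x, ∑ y ∈ C, v y := by
  have h1 := h.partition x v
  have h2 : ∑ y, ad G x y * v y = ∑ y ∈ G.neighborFinset x, v y := by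
    have : ∀ y, ad G x y * v y = if y ∈ G.neighborFinset x then v y else 0 := by
      intro y
      unfold ad
      by_cases hy : G.Adj x y
      · rw [if_pos hy, if_pos ((mem_N x y).mpr hy), one_mul]
      · rw [if_neg hy, if_neg (fun h' => hy ((mem_N x y).mp h')), zero_mul]
    rw [Finset.sum_congr rfl fun y _ => this y, Finset.sum_ite_mem, Finset.univ_inter]
  have h3 : ∀ C ∈ lnx G T m θ x, ∑ y ∈ C, v y = v x + ∑ y ∈ C.erase x, v y := by
    intro C hC
    rw [mem_lnx] at hC
    rw [Finset.add_sum_erase _ _ hC.2]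
  rw [Finset.sum_congr rfl h3, Finset.sum_add_distrib, h1, h2, Finset.sum_const, nsmul_eq_mul,
    hℓ x]
  ring

lemma Lg.card_lines (h : Lg G T t m θ) [Nonempty V] (ℓ : ℕ) (hℓt : |(ℓ : ℝ) - t| < 1 / 4)
    (hℓ : ∀ x, (lnx G T m θ x).card = ℓ) : (lns G T m θ).card < Fintype.card V := by
  classical
  have hdc : ∑ C ∈ lns G T m θ, C.card = ∑ x : V, (lnx G T m θ x).card := by
    have h1 : ∀ C : Finset V, C.card = ∑ x : V, if x ∈ C then 1 else 0 := by
      intro C; simp
    have h2 : ∀ x : V, (lnx G T m θ x).card = ∑ C ∈ lns G T m θ, if x ∈ C then 1 else 0 := by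
      intro x
      unfold lnx
      rw [Finset.card_filter]
    simp only [h2]
    rw [Finset.sum_comm]
    exact Finset.sum_congr rfl fun C _ => h1 C
  simp only [hℓ, Finset.sum_const, Finset.card_univ, smul_eq_mul] at hdc
  by_contra hcon
  push Not at hcon
  have hn : 0 < Fintype.card V := Fintype.card_pos
  have h1 : (Fintype.card V : ℝ) * (θ - (T + T ^ 2 * m)) ≤
      ((∑ C ∈ lns G T m θ, C.card : ℕ) : ℝ) := by
    have hpos : 0 ≤ θ - (T + T ^ 2 * m) := by linarith [h.q7, h.T1]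
    push_cast
    calc (Fintype.card V : ℝ) * (θ - (T + T ^ 2 * m)) ≤
          ((lns G T m θ).card : ℝ) * (θ - (T + T ^ 2 * m)) :=
            mul_le_mul_of_nonneg_right (by exact_mod_cast hcon) hpos
      _ = ∑ C ∈ lns G T m θ, (θ - (T + T ^ 2 * m)) := by rw [Finset.sum_const, nsmul_eq_mul]
      _ ≤ _ := Finset.sum_le_sum fun C hC => (h.line_card C hC).1
  rw [hdc] at h1
  push_cast at h1
  have hn' : (0 : ℝ) < Fintype.card V := by exact_mod_cast hn
  have h2 := le_of_mul_le_mul_left h1 hn'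
  rw [abs_lt] at hℓt
  have := h.q7
  have := h.tT
  linarith

end TE
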