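import Mathlib
import Pool.Agent.Helper85.TE.Bdd
import Pool.Agent.Helper85.TE.Lines

set_option autoImplicit false
set_option linter.unusedSectionVars false
set_option linter.unusedSimpArgs false

namespace TE

open Finset

variable {V : Type*} [Fintype V] [DecidableEq V]
variable {G : SimpleGraph V} [DecidableRel G.Adj] {T θ0 θ1 θ2 : ℝ} {α : V → ℝ}

/-- threshold for the second largest eigenvalue -/
noncomputable def QQ (T m : ℝ) : ℝ :=
  4 * (T ^ 2 * (m + 1)) + 4 * (m + T ^ 2 * (T + T ^ 2 * m)) + (2 * (T + T ^ 2 * m) + 2 * m + 2)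
    + m + 4 * (m + 2 * (T + 1) * ((T + T ^ 2 * m) + 1)) + 4 * (2 * (T + 1) * (m + 1))
    + ((T + T ^ 2 * m) + T + 4)

lemma Dat.theta2_neg (h : Dat G T θ0 θ1 θ2 α) (hθ1 : 0 < θ1) (hedge : ∃ x y, G.Adj x y) :
    θ2 < 0 := by
  by_contra hcon
  push Not at hcon
  have key : ∀ x y, G.Adj x y → α x ≤ α y → False := by
    intro x y hxy hle
    have h1 : cd G x y + 1 ≤ G.degree x := by
      rw [← SimpleGraph.card_neighborFinset_eq_degree]
      have h2 : G.neighborFinset x ∩ G.neighborFinset y ⊆ (G.neighborFinset x).erase y := by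
        intro w hw
        rw [Finset.mem_inter, mem_N, mem_N] at hw
        rw [Finset.mem_erase, mem_N]
        exact ⟨hw.2.ne', hw.1⟩
      have h3 := Finset.card_le_card h2
      rw [Finset.card_erase_of_mem ((mem_N x y).mpr hxy)] at h3
      have h4 : 0 < (G.neighborFinset x).card := Finset.card_pos.mpr ⟨y, (mem_N x y).mpr hxy⟩
      unfold cd
      omega
    have h2 : (cd G x y : ℝ) + 1 ≤ G.degree x := by exact_mod_cast h1
    rw [h.adj x y hxy, h.diag x] at h2
    have h3 := h.pos x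
    have h4 : α x * α x ≤ α x * α y := mul_le_mul_of_nonneg_left hle h3.le
    have h5 : 0 ≤ θ1 * θ2 := mul_nonneg hθ1.le hcon
    nlinarith
  obtain ⟨x, y, hxy⟩ := hedge
  rcases le_total (α x) (α y) with h1 | h1
  · exact key x y hxy h1
  · exact key y x hxy.symm h1

lemma Dat.lg (h : Dat G T θ0 θ1 θ2 α) (K : ℝ) (hK1 : 1 ≤ K) (hα1 : ∀ x, 1 ≤ α x)
    (hαK : ∀ x, α x ≤ K) (hQ : QQ T (K ^ 2) < θ1) (hedge : ∃ x y, G.Adj x y) :
    Lg G T (-θ2) (K ^ 2) θ1 := by
  have hT := h.T1
  have hm : (1 : ℝ) ≤ K ^ 2 := by nlinarith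
  set m := K ^ 2 with hmdef
  have hprod : ∀ x y, α x * α y ≤ m := by
    intro x y
    have h1 := hα1 x
    have h2 := hα1 y
    have h3 := hαK x
    have h4 := hαK y
    rw [hmdef]
    nlinarith
  have hprod1 : ∀ x y, 1 ≤ α x * α y := by
    intro x y
    have h1 := hα1 x
    have h2 := hα1 y
    nlinarith
  have p1 : 0 ≤ 4 * (T ^ 2 * (m + 1)) := by positivity
  have p2 : 0 ≤ 4 * (m + T ^ 2 * (T + T ^ 2 * m)) := by positivity
  have p3 : 0 ≤ 2 * (T + T ^ 2 * m) + 2 * m + 2 := by positivity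
  have p4 : 0 ≤ m := by positivity
  have p5 : 0 ≤ 4 * (m + 2 * (T + 1) * ((T + T ^ 2 * m) + 1)) := by positivity
  have p6 : 0 ≤ 4 * (2 * (T + 1) * (m + 1)) := by positivity
  have p7 : 0 ≤ (T + T ^ 2 * m) + T + 4 := by positivity
  unfold QQ at hQ
  have hθ1 : 0 < θ1 := by linarith
  have hθ2 := h.theta2_neg hθ1 hedge
  refine ⟨hT, by linarith, by linarith [h.hT], hm, ?_, ?_, ?_, ?_, ?_, ?_, by linarith,
    by linarith, by linarith, by linarith, by linarith, by linarith, by linarith⟩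
  · intro x y hxy
    rw [h.adj x y hxy]
    have := hprod1 x y
    linarith
  · intro x y hxy
    rw [h.adj x y hxy]
    have := hprod x y
    linarith
  · intro x y hne hxy
    rw [h.nadj x y hne hxy]
    exact hprod x y
  · intro x
    rw [h.diag x]
    have := sq_nonneg (α x)
    linarith
  · intro x
    rw [h.diag x]
    have := hprod x x
    nlinarith
  · intro x I hI hx
    exact star_bound h.T1 h.psd x I hI hx

/-- the matrix identity `(A - θ1)(A - θ2) = α αᵀ`, entrywise -/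
lemma Dat.entry (h : Dat G T θ0 θ1 θ2 α) (x y : V) :
    (cd G x y : ℝ) - (θ1 + θ2) * ad G x y + (if x = y then θ1 * θ2 else 0) = α x * α y := by
  by_cases hxy : x = y
  · rw [← hxy, if_pos rfl]
    have h1 : cd G x x = G.degree x := by unfold cd; rw [Finset.inter_self]; rfl
    have h2 : ad G x x = 0 := by unfold ad; simp
    rw [h1, h2, h.diag x]; ring
  · rw [if_neg hxy]
    by_cases hadj : G.Adj x y
    · have h2 : ad G x y = 1 := by unfold ad; rw [if_pos hadj]
      rw [h2, h.adj x y hadj]; ring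
    · have h2 : ad G x y = 0 := by unfold ad; rw [if_neg hadj]
      rw [h2, h.nadj x y hxy hadj]; ring

lemma ad_sq (x z : V) : ∑ y, ad G x y * ad G y z = cd G x z := by
  have h1 := sq_apply G x z
  rw [Matrix.mul_apply] at h1
  rw [← h1]
  rfl

lemma ad_symm (x y : V) : ad G x y = ad G y x := by
  unfold ad; simp [G.adj_comm]

lemma Dat.op (h : Dat G T θ0 θ1 θ2 α) (u : V → ℝ) (x : V) :
    ∑ y, ad G x y * (∑ z, ad G y z * u z) - (θ1 + θ2) * ∑ z, ad G x z * u z + θ1 * θ2 * u x
      = α x * ∑ z, α z * u z := by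
  have h1 : ∑ y, ad G x y * (∑ z, ad G y z * u z) = ∑ z, (cd G x z : ℝ) * u z := by
    simp only [Finset.mul_sum]
    rw [Finset.sum_comm]
    refine Finset.sum_congr rfl fun z _ => ?_
    rw [← ad_sq, Finset.sum_mul]
    exact Finset.sum_congr rfl fun y _ => by ring
  have h2 : θ1 * θ2 * u x = ∑ z, (if x = z then θ1 * θ2 else 0) * u z := by
    simp
  rw [h1, h2, Finset.mul_sum, Finset.mul_sum, ← Finset.sum_sub_distrib, ← Finset.sum_add_distrib]
  refine Finset.sum_congr rfl fun z _ => ?_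
  rw [← mul_assoc (α x), ← h.entry x z]
  ring

lemma ad_adjoint (u w : V → ℝ) :
    ∑ x, u x * ∑ y, ad G x y * w y = ∑ x, (∑ y, ad G x y * u y) * w x := by
  simp only [Finset.mul_sum, Finset.sum_mul]
  rw [Finset.sum_comm]
  refine Finset.sum_congr rfl fun x _ => Finset.sum_congr rfl fun y _ => ?_
  rw [ad_symm y x]
  ring

theorem Dat.false_of_large (h : Dat G T θ0 θ1 θ2 α) (hreg : ¬ ∃ d, G.IsRegularOfDegree d)
    (K : ℝ) (hK1 : 1 ≤ K)
    (hαK : ∀ x, α x ≤ K) (hQ : QQ T (K ^ 2) < θ1) : False := by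
  classical
  have hne : Nonempty V := h.conn.nonempty
  have hedge : ∃ x y, G.Adj x y := by
    by_contra hcon
    push Not at hcon
    exact hreg (h.reg_of_const fun x y hxy => absurd hxy (hcon x y))
  have hL := h.lg K hK1 (h.one_le hreg) hαK hQ hedge
  obtain ⟨ℓ, hℓt, hℓ⟩ := hL.exists_ell
  have hcard := hL.card_lines ℓ hℓt hℓ
  set 𝓛 := lns G T (K ^ 2) θ1 with h𝓛
  have hθ1 : 0 < θ1 := by
    have := hL.q4; have := hL.m1; linarith
  -- kernel vector
  obtain ⟨v, hv0, hv⟩ : ∃ v : V → ℝ, v ≠ 0 ∧ ∀ C ∈ 𝓛, ∑ y ∈ C, v y = 0 := by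
    let f : (V → ℝ) →ₗ[ℝ] (𝓛 → ℝ) :=
      { toFun := fun v C => ∑ y ∈ C.1, v y
        map_add' := by intro a b; ext C; simp [Finset.sum_add_distrib]
        map_smul' := by intro a b; ext C; simp [Finset.mul_sum] }
    have hk : LinearMap.ker f ≠ ⊥ := by
      apply LinearMap.ker_ne_bot_of_finrank_lt
      rw [Module.finrank_fintype_fun_eq_card, Module.finrank_fintype_fun_eq_card,
        Fintype.card_coe]
      exact hcard
    obtain ⟨v, hv, hv0⟩ := (Submodule.ne_bot_iff _).mp hk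
    refine ⟨v, hv0, fun C hC => ?_⟩
    have := congrFun (LinearMap.mem_ker.mp hv) ⟨C, hC⟩
    exact this
  have hlx : ∀ (x : V) (C : Finset V), C ∈ lnx G T (K ^ 2) θ1 x → C ∈ 𝓛 := fun x C hC =>
    ((mem_lnx x C).mp hC).1
  have hev : ∀ x, ∑ y, ad G x y * v y = (-(ℓ : ℝ)) * v x := by
    intro x
    have h1 := hL.sum_lines ℓ hℓ v x
    rw [Finset.sum_eq_zero (fun C hC => hv C (hlx x C hC))] at h1
    linarith
  have hℓθ : (ℓ : ℝ) = -θ2 := by
    have hℓ0 : (0 : ℝ) ≤ ℓ := Nat.cast_nonneg _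
    rcases h.ev _ v hv0 hev with h1 | h1 | h1
    · have := h.h0; linarith
    · linarith
    · linarith
  have hsum : ∀ (u : V → ℝ) (x : V), ∑ y, ad G x y * u y - θ2 * u x =
      ∑ C ∈ lnx G T (K ^ 2) θ1 x, ∑ y ∈ C, u y := by
    intro u x
    rw [← hL.sum_lines ℓ hℓ u x, hℓθ]
    ring
  -- double counting
  have hdc : ∀ u : V → ℝ, ∑ x, u x * (∑ C ∈ lnx G T (K ^ 2) θ1 x, ∑ y ∈ C, u y) =
      ∑ C ∈ 𝓛, (∑ y ∈ C, u y) ^ 2 := by
    intro u
    have h1 : ∀ x, u x * (∑ C ∈ lnx G T (K ^ 2) θ1 x, ∑ y ∈ C, u y) =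
        ∑ C ∈ 𝓛, if x ∈ C then u x * ∑ y ∈ C, u y else 0 := by
      intro x
      rw [Finset.mul_sum, lnx, Finset.sum_filter]
    rw [Finset.sum_congr rfl fun x _ => h1 x, Finset.sum_comm]
    refine Finset.sum_congr rfl fun C _ => ?_
    rw [Finset.sum_ite_mem, Finset.univ_inter, ← Finset.sum_mul]
    ring
  have hθ02 : 0 < θ0 - θ2 := by linarith [h.h01, h.h12]
  -- the weight is constant on lines
  have hconst : ∀ C ∈ 𝓛, ∃ a b : ℝ, 0 < b ∧ ∀ x ∈ C, b * α x = a := by
    intro C hC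
    have hCline := (mem_lns C).mp hC
    have hCpos : C.Nonempty := by
      have h1 := (hL.line_card C hC).1
      have h2 := hL.q7
      have h3 := hL.T1
      have h4 : (0 : ℝ) < C.card := by linarith
      exact Finset.card_pos.mp (by exact_mod_cast h4)
    set w : ℝ := ∑ y ∈ C, α y with hw
    have hwpos : 0 < w := Finset.sum_pos (fun y _ => h.pos y) hCpos
    set ρ : ℝ := w / (θ0 - θ2) with hρ
    have hρpos : 0 < ρ := div_pos hwpos hθ02
    have hρw : ρ * (θ0 - θ2) = w := by rw [hρ]; field_simp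
    set c : V → ℝ := ind C with hc
    set z : V → ℝ := fun x => ∑ y, ad G x y * c y - θ1 * c x - ρ * α x with hz
    have hcw : ∀ u : V → ℝ, ∑ y, u y * c y = ∑ y ∈ C, u y := by
      intro u
      have : ∀ y, u y * c y = if y ∈ C then u y else 0 := by
        intro y; rw [hc]; unfold ind; split_ifs <;> simp
      rw [Finset.sum_congr rfl fun y _ => this y, Finset.sum_ite_mem, Finset.univ_inter]
    have hAz : ∀ x, ∑ y, ad G x y * z y = θ2 * z x := by
      intro x
      have h1 := h.op c x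
      rw [hcw α, ← hw] at h1
      have h2 := h.eig x
      have h3 : ∑ y, ad G x y * z y = ∑ y, ad G x y * (∑ z, ad G y z * c z)
          - θ1 * ∑ y, ad G x y * c y - ρ * ∑ y, ad G x y * α y := by
        rw [Finset.mul_sum, Finset.mul_sum, ← Finset.sum_sub_distrib, ← Finset.sum_sub_distrib]
        refine Finset.sum_congr rfl fun y _ => ?_
        rw [hz]
        ring
      rw [h3, h2, hz]
      simp only
      linear_combination h1 - α x * hρw
    have hw0 : ∀ C' ∈ 𝓛, ∑ y ∈ C', z y = 0 := by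
      have h1 : ∑ x, z x * (∑ C ∈ lnx G T (K ^ 2) θ1 x, ∑ y ∈ C, z y) = 0 := by
        refine Finset.sum_eq_zero fun x _ => ?_
        rw [← hsum z x, hAz x]
        ring
      rw [hdc z] at h1
      intro C' hC'
      have h2 := (Finset.sum_eq_zero_iff_of_nonneg (fun C _ => sq_nonneg _)).mp h1 C' hC'
      exact pow_eq_zero_iff (two_ne_zero) |>.mp h2
    have hzc : ∑ x, z x * c x = 0 := by rw [hcw z]; exact hw0 C hC
    have hzAc : ∑ x, z x * ∑ y, ad G x y * c y = 0 := by
      rw [ad_adjoint]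
      have : ∀ x, (∑ y, ad G x y * z y) * c x = θ2 * (z x * c x) := by
        intro x; rw [hAz x]; ring
      rw [Finset.sum_congr rfl fun x _ => this x, ← Finset.mul_sum, hzc, mul_zero]
    have hzα : ∑ x, z x * α x = 0 := by
      have h1 : ∑ x, z x * ∑ y, ad G x y * α y = θ0 * ∑ x, z x * α x := by
        rw [Finset.mul_sum]
        refine Finset.sum_congr rfl fun x _ => ?_
        rw [h.eig x]; ring
      have h2 : ∑ x, z x * ∑ y, ad G x y * α y = θ2 * ∑ x, z x * α x := by
        rw [ad_adjoint, Finset.mul_sum]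
        refine Finset.sum_congr rfl fun x _ => ?_
        rw [hAz x]; ring
      have h3 : (θ0 - θ2) * ∑ x, z x * α x = 0 := by linarith
      exact (mul_eq_zero.mp h3).resolve_left hθ02.ne'
    have hzz : ∑ x, z x ^ 2 = 0 := by
      have h1 : ∀ x, z x ^ 2 = z x * (∑ y, ad G x y * c y) - θ1 * (z x * c x)
          - ρ * (z x * α x) := by
        intro x
        have : z x = ∑ y, ad G x y * c y - θ1 * c x - ρ * α x := rfl
        calc z x ^ 2 = z x * z x := by ring
          _ = z x * (∑ y, ad G x y * c y - θ1 * c x - ρ * α x) := by rw [← this]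
          _ = _ := by ring
      rw [Finset.sum_congr rfl fun x _ => h1 x, Finset.sum_sub_distrib, Finset.sum_sub_distrib,
        ← Finset.mul_sum, ← Finset.mul_sum, hzAc, hzc, hzα]
      ring
    have hz0 : ∀ x, z x = 0 := by
      intro x
      have h2 := (Finset.sum_eq_zero_iff_of_nonneg (fun x _ => sq_nonneg (z x))).mp hzz x
        (Finset.mem_univ x)
      exact pow_eq_zero_iff (two_ne_zero) |>.mp h2
    refine ⟨(C.card : ℝ) - 1 - θ1, ρ, hρpos, ?_⟩
    intro x hx
    have h1 : z x = ∑ y, ad G x y * c y - θ1 * c x - ρ * α x := rfl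
    rw [hz0 x] at h1
    have h2 : c x = 1 := by rw [hc]; unfold ind; rw [if_pos hx]
    have h3 : ∑ y, ad G x y * c y = (C.card : ℝ) - 1 := by
      rw [hcw (fun y => ad G x y), ← Finset.add_sum_erase _ _ hx]
      have e1 : ad G x x = 0 := by unfold ad; simp
      have e2 : ∑ y ∈ C.erase x, ad G x y = ∑ y ∈ C.erase x, (1 : ℝ) := by
        refine Finset.sum_congr rfl fun y hy => ?_
        rw [Finset.mem_erase] at hy
        unfold ad
        rw [if_pos (hCline.1 x hx y hy.2 (Ne.symm hy.1))]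
      rw [e1, e2, Finset.sum_const, Finset.card_erase_of_mem hx, nsmul_eq_mul, mul_one, zero_add,
        Nat.cast_sub (Finset.card_pos.mpr ⟨x, hx⟩)]
      simp
    rw [h2, h3] at h1
    linarith
  apply hreg
  apply h.reg_of_const
  intro x y hxy
  obtain ⟨C, hC, hx, hy⟩ := hL.exists_line x y hxy
  obtain ⟨a, b, hb, hab⟩ := hconst C hC
  have h1 := hab x hx
  have h2 := hab y hy
  exact mul_left_cancel₀ hb.ne' (h1.trans h2.symm)

end TE
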